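import Pool.Agent.MP_13199e_lc.PP.Model

/-! PROJECT PP: polynomial time on finite types, tables and positions in lists. -/

set_option autoImplicit false

namespace Pool.Agent.PP

open Pool.Agent.PolyT Pool.Agent.H82 N487b59b3 Function

open Classical in
/-- The encoding through an injective code. -/
@[instance_reducible]
noncomputable def encVia {α β : Type} [N487b59b3 β] (f : α → β) (h : Injective f) :
    N487b59b3 α :=
  ofLeftInverse f (fun b => if u : ∃ a, f a = b then some u.choose else none) fun a => by
    have u : ∃ a', f a' = f a := ⟨a, rfl⟩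
    rw [dif_pos u, h u.choose_spec]

/-- An encoding of a finite type. -/
@[instance_reducible]
noncomputable def finCode (α : Type) [Finite α] : N487b59b3 α :=
  encVia (fun a => (Finite.equivFin α a : ℕ)) (Fin.val_injective.comp (Equiv.injective _))

variable {α β γ : Type} [N487b59b3 α] [N487b59b3 β] [N487b59b3 γ]

/-- Every function on a finite type is polynomial time. -/
theorem poly_fin [Finite α] (f : α → β) : Poly f := by
  classical
  have := Fintype.ofFinite α
  cases isEmpty_or_nonempty α with
  | inl h => exact PT.congr (Poly.id (α := α)) fun a => h.elim a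
  | inr h =>
    obtain ⟨a0⟩ := h
    have key : ∀ l : List α, Poly fun a => if a ∈ l then f a else f a0 := fun l => by
      induction l with
      | nil => exact (p_const (f a0)).congr fun a => by simp
      | cons x l ih =>
        refine (Poly.ite (c := fun a => a = x) (Poly.id.eq (p_const x)) (p_const (f x))
          ih).congr fun a => ?_
        by_cases e : a = x <;> simp [e]
    exact (key Finset.univ.toList).congr fun a => by simp

theorem poly_fin1 [Finite β] (F : β → γ) {f : α → β} (hf : Poly f) : Poly fun a => F (f a) :=
  (poly_fin F).comp hf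

theorem poly_fin2 {δ : Type} [N487b59b3 δ] [Finite β] [Finite γ] (F : β → γ → δ) {f : α → β}
    {g : α → γ} (hf : Poly f) (hg : Poly g) : Poly fun a => F (f a) (g a) :=
  (poly_fin fun p : β × γ => F p.1 p.2).comp (hf.pair hg)

/-- Rows over a finite type. -/
theorem poly_pi {J : Type} [Finite J] [Finite β] [Nonempty β] [N487b59b3 (J → β)] {f : α → J → β}
    (h : ∀ j, Poly fun a => f a j) : Poly f := by
  classical
  have := Fintype.ofFinite J
  have key : ∀ l : List J, Poly fun a j => if j ∈ l then f a j else Classical.arbitrary β :=
    fun l => by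
      induction l with
      | nil => exact (p_const fun _ => Classical.arbitrary β).congr fun a => by simp
      | cons x l ih =>
        refine (poly_fin2 (fun (g : J → β) b => update g x b) ih (h x)).congr fun a => ?_
        funext j
        by_cases e : j = x <;> simp [e]
  exact (key Finset.univ.toList).congr fun a => by simp

theorem poly_raw {f : α → β} {g : α → γ} (hg : Poly g)
    (h : ∀ a, bitEncode (g a) = bitEncode (f a)) : Poly f := PT.congr hg h

theorem enc_map (f : β → γ) (h : ∀ b, bitEncode (f b) = bitEncode b) (l : List β) :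
    bitEncode (l.map f) = bitEncode l := by
  induction l with
  | nil => rfl
  | cons x l ih => rw [List.map_cons, enc_cons, enc_cons, h, ih]

theorem enc_len_le {l : List β} {B : ℕ} (h : ∀ x ∈ l, (bitEncode x).length ≤ B) :
    (bitEncode l).length ≤ l.length * (2 * B + 1) := by
  induction l with
  | nil => simp
  | cons x l ih =>
    have := h x (by simp)
    have := ih fun y hy => h y (by simp [hy])
    rw [length_enc_cons, List.length_cons, Nat.add_mul, Nat.one_mul]
    omega

theorem fin_bd (β : Type) [N487b59b3 β] [Finite β] : ∃ B, ∀ b : β, (bitEncode b).length ≤ B := by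
  obtain ⟨B, h⟩ := (Set.finite_range fun b : β => (bitEncode b).length).bddAbove
  exact ⟨B, fun b => h ⟨b, rfl⟩⟩

@[fun_prop] theorem p_headD {l : α → List β} {d : α → β} (hl : Poly l) (hd : Poly d) :
    Poly fun a => (l a).headD (d a) := hl.headD hd

@[fun_prop] theorem p_tail {l : α → List β} (hl : Poly l) : Poly fun a => (l a).tail := hl.tail

@[fun_prop] theorem p_reverse {l : α → List β} (hl : Poly l) : Poly fun a => (l a).reverse :=
  hl.reverse

@[fun_prop] theorem p_bits {f : α → ℕ} (hf : Poly f) : Poly fun a => (f a).bits := hf.bits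

@[fun_prop] theorem p_bodd {f : α → ℕ} (hf : Poly f) : Poly fun a => (f a).bodd := hf.bodd

/-- Lookup in a table. -/
def lk {β γ : Type} [DecidableEq β] (t : List (β × γ)) (k : β) (d : γ) : γ :=
  ((t.filter fun e => eqB e.1 k).map Prod.snd).headD d

@[fun_prop] theorem p_lk [DecidableEq β] {t : α → List (β × γ)} {k : α → β} {d : α → γ}
    (ht : Poly t) (hk : Poly k) (hd : Poly d) : Poly fun a => lk (t a) (k a) (d a) := by
  unfold lk
  fun_prop

theorem lk_eq {β γ : Type} [DecidableEq β] {t : List (β × γ)} {k : β} {c : γ} (d : γ)
    (h : (k, c) ∈ t) (h' : ∀ c', (k, c') ∈ t → c' = c) : lk t k d = c := by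
  induction t with
  | nil => cases h
  | cons e t ih =>
    by_cases u : e.1 = k
    · have : e.2 = c := h' _ (by rw [← u]; simp)
      simp [lk, u, this]
    · have := ih ((List.mem_cons.1 h).resolve_left fun v => u (by rw [← v])) fun c' v =>
        h' c' (List.mem_cons_of_mem _ v)
      simpa [lk, u] using this

theorem lk_map {ι β γ : Type} [DecidableEq β] {l : List ι} {key : ι → β} {v : ι → γ} {x : ι}
    (d : γ) (h : x ∈ l) (h' : ∀ y ∈ l, key y = key x → v y = v x) :
    lk (l.map fun y => (key y, v y)) (key x) d = v x :=
  lk_eq d (List.mem_map.2 ⟨x, h, rfl⟩) fun c' u => by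
    obtain ⟨y, hy, e⟩ := List.mem_map.1 u
    rw [← h' y hy (congrArg Prod.fst e)]
    exact (congrArg Prod.snd e).symm

@[fun_prop] theorem p_idxOf [BEq β] [LawfulBEq β] {x : α → β} {l : α → List β} (hx : Poly x)
    (hl : Poly l) : Poly fun a => (l a).idxOf (x a) := by
  classical
  have key : ∀ (x : β) (l : List β),
      l.foldr (fun y n => bif eqB y x then 0 else n + 1) 0 = l.idxOf x := fun x l => by
    induction l with
    | nil => rfl
    | cons y l ih =>
      rw [List.foldr_cons, ih, List.idxOf_cons]
      by_cases e : y = x
      · simp [e, eqB]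
      · simp [e, eqB, beq_eq_false_iff_ne.2 e]
  refine (Poly.foldr (f := fun a y n => bif eqB y (x a) then 0 else n + 1) (by fun_prop) hl
    (p_const 0) hl.bd fun a n => ?_).congr fun a => key _ _
  rw [key]
  exact (length_enc_nat_le_self _).trans (List.idxOf_le_length.trans
    ((List.drop_sublist _ _).length_le.trans (length_le_enc _)))

end Pool.Agent.PP
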