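import Pool.Agent.MP_13199e_lc.PP.Model

/-! PROJECT PP, block G: the base embedding of a plain circuit into a level of the tower. -/

set_option autoImplicit false

namespace Pool.Agent.PP

open Pool.Agent.MP_13199e_lc Pool.Agent.PolyT Pool.Agent.H82 Function

/-- The direction from the vertex `n` towards its descendant `a`. -/
def dir (n a : ℕ) : Bool := a.bits.reverse.getD n.bits.length false

theorem bits_ne {n : ℕ} (h : n ≠ 0) : n.bits = n.bodd :: (n / 2).bits := by
  conv_lhs => rw [← Nat.bit_bodd_div2 n]
  rw [Nat.bits_append_bit, Nat.div2_val]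
  intro h0
  by_contra hb
  have := Nat.bit_bodd_div2 n
  rw [h0, Bool.eq_false_iff.2 hb] at this
  exact h this.symm

theorem vtx_ne {Mv Z : Type} (mv : Mv → Z → Z) (a : Bool → List Mv) {n : ℕ} (h : n ≠ 0) (z : Z) :
    vtx mv a n z = run mv (a n.bodd) (vtx mv a (n / 2) z) := by
  rw [vtx, bits_ne h]; rfl

/-- Transport in a tree: up from the vertex `a` to the root, then down to all vertices. -/
theorem tree_pass {P : Type} (q : ℕ → P) (A B : Bool → P → P) (S M U N D : P → V4) (n₀ a : ℕ)
    (c : V4) (hq : ∀ n, n ≠ 0 → q n = A n.bodd (q (n / 2))) (hB : ∀ b z, B b (A b z) = z)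
    (hM : ∀ n < n₀, U (A (dir n a) (q n)) = c → M (q n) = c)
    (hU : ∀ n < n₀, (bif eqB n a then S else M) (q n) = c → U (q n) = c)
    (hN : ∀ n < n₀, D (B n.bodd (q n)) = c → N (q n) = c)
    (hD : ∀ n < n₀, (bif eqB n 0 then U else N) (q n) = c → D (q n) = c)
    (ha : a < n₀) (hS : S (q a) = c) : ∀ n < n₀, D (q n) = c := by
  have up : ∀ n, n ≤ a → (∃ l, a.bits = l ++ n.bits) → U (q n) = c → U (q 0) = c := by
    intro n
    induction n using Nat.strong_induction_on with
    | _ n ih =>
      rintro h1 ⟨l, hl⟩ h2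
      rcases eq_or_ne n 0 with rfl | h0
      · exact h2
      rw [bits_ne h0] at hl
      refine ih (n / 2) (by omega) (by omega) ⟨l ++ [n.bodd], by simpa using hl⟩
        (hU _ (by omega) ?_)
      rw [eqB_false_iff.2 (by omega), cond_false]
      refine hM _ (by omega) ?_
      have : dir (n / 2) a = n.bodd := by simp [dir, hl]
      rwa [this, ← hq n h0]
  have u0 := up a le_rfl ⟨[], rfl⟩ (hU a ha (by rwa [eqB_iff.2 rfl, cond_true]))
  intro n
  induction n using Nat.strong_induction_on with
  | _ n ih =>
    intro hn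
    refine hD n hn ?_
    rcases eq_or_ne n 0 with rfl | h0
    · rwa [eqB_iff.2 rfl, cond_true]
    rw [eqB_false_iff.2 h0, cond_false]
    refine hN n hn ?_
    rw [hq n h0, hB]
    exact ih _ (by omega) (by omega)

/-- The contexts of the base embedding. -/
abbrev BCtx : Type := T4 × T4 × T4 × T4 × T4 × T4

/-- The position of a pair of vertices. -/
def pos {Mv Z : Type} (mv : Mv → Z → Z) (a : Bool → Bool → List Mv) (z : Z) (u v : ℕ) : Z :=
  vtx mv (a false) u (vtx mv (a true) v z)

/-- The read `i` of the gate `v`. -/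
def rdOf (C : List PGate) (v : ℕ) (i : Bool) : ℕ × Bool :=
  bif i then (C.getD v default).2.2 else (C.getD v default).2.1

/-- The context of the position `(u, v)`. -/
def role (C : List PGate) (u v : ℕ) : BCtx :=
  ((C.getD v default).1, tab fun _ i => (rdOf C v i).2,
    tab fun t i => bif t then dir v u else dir u (rdOf C v i).1,
    tab fun t i => bif t then eqB v u else eqB u (rdOf C v i).1,
    tab fun t _ => bif t then v.bodd else u.bodd,
    tab fun t _ => bif t then eqB v 0 else eqB u 0)

@[fun_prop] theorem p_role {α : Type} [N487b59b3 α] {C : α → List PGate} {u v : α → ℕ}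
    (hC : Poly C) (hu : Poly u) (hv : Poly v) : Poly fun x => role (C x) (u x) (v x) := by
  have hd : ∀ {f g : α → ℕ}, Poly f → Poly g → Poly fun x => dir (f x) (g x) := fun hf hg =>
    hg.bits.reverse.getD hf.bits.length (p_const _)
  have hr : ∀ i, Poly fun x => rdOf (C x) (v x) i := fun i => by unfold rdOf; fun_prop
  have h1 := hd hv hu
  have h2 := fun i => hd hu (hr i).fst
  have h3 := hu.bodd
  have h4 := hv.bodd
  simp only [role, tab, cond_true, cond_false]
  fun_prop

/-- The kinds of layers. -/
inductive Kd | S | M | U | N | D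
  deriving DecidableEq, Fintype

/-- The selection bits. -/
def Kd.bit (c : BCtx) : Kd → T4
  | S => c.2.1 | M => c.2.2.1 | U => c.2.2.2.1 | N => c.2.2.2.2.1 | D => c.2.2.2.2.2

/-- The fragment of the base embedding. -/
def baseF : Frag BCtx (Option (Bool × Bool × Bool)) Empty where
  Lay := Option (Bool × Bool × Kd)
  fin := inferInstance
  src a s := .inr <| match a with
    | none => some (false, s, .D)
    | some (t, _, .S) => bif t then none else some (true, s, .D)
    | some (t, i, .M) => some (t, i, .U)
    | some (t, i, .U) => some (t, i, bif s then .S else .M)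
    | some (t, i, .N) => some (t, i, .D)
    | some (t, i, .D) => some (t, i, bif s then .U else .N)
  wire a s := match a with
    | some (t, _, .M) => some (true, t, s)
    | some (t, _, .N) => some (false, t, s)
    | _ => none
  flag a _ := match a with
    | some (_, i, .S) => i
    | _ => false
  f a c := match a with
    | none => tt c.1
    | some (t, i, k) => fun x y => bif tt (k.bit c) t i then y else x

theorem Forc.sel {s c : Bool} {a : Bool → Option Bool} {v : V4}
    (h : Forc (fun x y => bif s then y else x) (a false) (a true) v) (ha : a s = some c) :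
    v = ofB c :=
  h c fun _ _ h0 h1 => by
    cases s
    · exact h0 c ha
    · exact h1 c ha

theorem base_sat {P : Type} (rn : Option (Bool × Bool × Bool) → P → P) (ctx : P → BCtx)
    (v : Option (Bool × Bool × Kd) → P → V4) (q : ℕ → ℕ → P) (C : List PGate) (hC : PWf C)
    (h0 : ∀ p, rn none p = p) (hB : ∀ t b z, rn (some (false, t, b)) (rn (some (true, t, b)) z) = z)
    (h1 : ∀ u w, u ≠ 0 → q u w = rn (some (true, false, u.bodd)) (q (u / 2) w))
    (h2 : ∀ u w, w ≠ 0 → q u w = rn (some (true, true, w.bodd)) (q u (w / 2)))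
    (hc : ∀ u < C.length, ∀ w < C.length, ctx (q u w) = role C u w)
    (hv : ∀ p, baseF.Sat rn ctx Empty.elim v p) (i : ℕ) : POk C (fun u => v none (q u u)) i := by
  have sel : ∀ t i k u w c, u < C.length → w < C.length → ∀ s, tt (k.bit (role C u w)) t i = s →
      rd (baseF.flag (some (t, i, k)) s) (Sum.elim Empty.elim v (baseF.src (some (t, i, k)) s)
        (rn (baseF.wire (some (t, i, k)) s) (q u w))) = some c →
      v (some (t, i, k)) (q u w) = ofB c := by
    rintro t i k u w c hu hw s rfl h
    have := hv (q u w) (some (t, i, k))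
    rw [hc u hu w hw] at this
    exact Forc.sel (a := fun s => rd (baseF.flag (some (t, i, k)) s)
      (Sum.elim Empty.elim v (baseF.src (some (t, i, k)) s)
        (rn (baseF.wire (some (t, i, k)) s) (q u w)))) this h
  have pu : ∀ {fl c : Bool} {x : V4}, x = ofB c → rd fl x = some c := fun h => h ▸ rd_ofB _ _
  have second : ∀ u < C.length, ∀ fl c, rd fl (v none (q u u)) = some c → ∀ w < C.length,
      v (some (true, fl, .D)) (q u w) = ofB c := fun u hu fl c h =>
    tree_pass (q u) (fun b => rn (some (true, true, b))) (fun b => rn (some (false, true, b)))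
      (v (some (true, fl, .S))) (v (some (true, fl, .M))) (v (some (true, fl, .U)))
      (v (some (true, fl, .N))) (v (some (true, fl, .D))) C.length u (ofB c) (h2 u) (hB true)
      (fun n hn e => sel _ _ _ _ _ _ hu hn (dir n u) (by simp [Kd.bit, role]) (pu e))
      (fun n hn e => sel _ _ _ _ _ _ hu hn (eqB n u) (by simp [Kd.bit, role])
        (pu (by cases hb : eqB n u <;> simpa [baseF, h0, hb] using e)))
      (fun n hn e => sel _ _ _ _ _ _ hu hn n.bodd (by simp [Kd.bit, role]) (pu e))
      (fun n hn e => sel _ _ _ _ _ _ hu hn (eqB n 0) (by simp [Kd.bit, role])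
        (pu (by cases hb : eqB n 0 <;> simpa [baseF, h0, hb] using e)))
      hu (sel _ _ _ _ _ _ hu hu _ rfl (by simpa [baseF, h0] using h))
  have first : ∀ w < C.length, ∀ i c, (rdOf C w i).1 < C.length →
      rd (rdOf C w i).2 (v none (q (rdOf C w i).1 (rdOf C w i).1)) = some c →
      v (some (false, i, .D)) (q w w) = ofB c := fun w hw i c hu h =>
    tree_pass (q · w) (fun b => rn (some (true, false, b))) (fun b => rn (some (false, false, b)))
      (v (some (false, i, .S))) (v (some (false, i, .M))) (v (some (false, i, .U)))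
      (v (some (false, i, .N))) (v (some (false, i, .D))) C.length (rdOf C w i).1 (ofB c)
      (h1 · w) (hB false)
      (fun n hn e => sel _ _ _ _ _ _ hn hw (dir n (rdOf C w i).1) (by simp [Kd.bit, role]) (pu e))
      (fun n hn e => sel _ _ _ _ _ _ hn hw (eqB n (rdOf C w i).1) (by simp [Kd.bit, role])
        (pu (by cases hb : eqB n (rdOf C w i).1 <;> simpa [baseF, h0, hb] using e)))
      (fun n hn e => sel _ _ _ _ _ _ hn hw n.bodd (by simp [Kd.bit, role]) (pu e))
      (fun n hn e => sel _ _ _ _ _ _ hn hw (eqB n 0) (by simp [Kd.bit, role])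
        (pu (by cases hb : eqB n 0 <;> simpa [baseF, h0, hb] using e)))
      hu (sel _ _ _ _ _ _ hu hw (rdOf C w i).2 (by simp [Kd.bit, role])
        (pu (by simpa [baseF, h0] using second _ hu _ c h w hw))) w hw
  intro g hg
  obtain ⟨hi, rfl⟩ := List.getElem?_eq_some_iff.1 hg
  have e : C.getD i default = C[i] := List.getD_eq_getElem _ _ hi
  have wf := hC.2 _ (List.getElem_mem hi)
  have := hv (q i i) none
  rw [hc i hi i hi] at this
  intro c hf
  refine this c fun a' b' ha hb => ?_
  simp only [baseF, role, e]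
  refine hf a' b' (fun d hd => ha d (pu ?_)) fun d hd => hb d (pu ?_)
  · simpa [baseF, h0] using first i hi false d (by simpa [rdOf, hi] using wf.1)
      (by simpa [rdOf, hi] using hd)
  · simpa [baseF, h0] using first i hi true d (by simpa [rdOf, hi] using wf.2)
      (by simpa [rdOf, hi] using hd)

theorem vtx_comm {Mv Z : Type} (mv : Mv → Z → Z) (a : Bool → List Mv) (f : Z → Z)
    (h : ∀ c z, run mv (a c) (f z) = f (run mv (a c) z)) (n : ℕ) (z : Z) :
    vtx mv a n (f z) = f (vtx mv a n z) := by
  unfold vtx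
  induction n.bits with
  | nil => rfl
  | cons c l ih => rw [List.foldr_cons, ih, h, List.foldr_cons]

theorem run_lay_true {Mv Z Ctx : Type} (mv : Mv → Z → Z) (ctx : Z → Ctx) (l : List Mv) (z : Z) :
    run (lay mv ctx) (l.map fun m => (m, fun _ => true)) z = run mv l z := by
  induction l generalizing z with
  | nil => rfl
  | cons m l ih => exact ih _

/-- THE BASE EMBEDDING. -/
theorem base_embed (hC : CompS) {Mv Λ Sl : Type} [Finite Sl] (T : Tow Mv Λ) (hT : T.Tree)
    (hS : 10 ^ 12 ≤ Nat.card Sl) :
    ∃ (ω : Wir Mv Sl) (Ψ : BCtx → Sl → Gate) (o : Sl) (a : Bool → Bool → List Mv) (w : List Mv)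
      (l : Λ),
      (∀ k u v u' v', u < 2 ^ k → v < 2 ^ k → u' < 2 ^ k → v' < 2 ^ k →
        pos (T.mv (k + 1)) a (run (T.mv (k + 1)) w (T.org l (k + 1))) u v =
          pos (T.mv (k + 1)) a (run (T.mv (k + 1)) w (T.org l (k + 1))) u' v' →
        u = u' ∧ v = v') ∧
      ∀ k (z : T.Z k) (C : List PGate), PWf C → ∀ ctx : T.Z k → BCtx,
        (∀ u < C.length, ∀ v < C.length, ctx (pos (T.mv k) a z u v) = role C u v) →
        ∀ x, viol ω (T.mv k) (fun p => Ψ (ctx p)) x = 0 →
          ∀ i, POk C (fun u => x (pos (T.mv k) a z u u) o) i := by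
  obtain ⟨a, b, w, l, hl, h⟩ := hT
  let wd : Option (Bool × Bool × Bool) → List Mv := fun W =>
    W.elim [] fun W => bif W.1 then a W.2.1 W.2.2 else b W.2.1 W.2.2
  obtain ⟨ω, Ψ, o, H⟩ := hC BCtx _ Mv Sl baseF T.m0 100
    (fun W => (wd W).map fun m => (m, fun _ => true))
    (by
      rintro (_ | ⟨_ | _, t, c⟩)
      · simp [wd]
      · simpa [wd] using (hl t c).2
      · simpa [wd] using (hl t c).1)
    (by
      have : Nat.card baseF.Lay = 21 := by
        change Nat.card (Option (Bool × Bool × Kd)) = 21
        rw [Nat.card_eq_fintype_card]; rfl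
      rw [this]; exact le_trans (by norm_num) hS)
  refine ⟨ω, Ψ, o none, a, w, l, fun k => (h k).2.2, fun k z C wf ctx hc x hx => ?_⟩
  obtain ⟨F, hF, hs⟩ := H (T.Z k) (T.mv k) ctx (T.id0 k)
    (fun W m hm => by
      obtain ⟨m, -, rfl⟩ := List.mem_map.1 hm
      exact T.inj k m) x
  rw [funext fun W => funext (run_lay_true (T.mv k) ctx (wd W))] at hs
  refine base_sat (fun W => run (T.mv k) (wd W)) ctx (fun a p => x p (o a)) (pos (T.mv k) a z) C wf
    (fun _ => rfl) (h k).1 (fun u v hu => vtx_ne _ _ hu _) (fun u v hv => ?_) hc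
    fun p => hs p fun hp => ?_
  · rw [pos, vtx_ne _ _ hv]
    exact vtx_comm _ _ _ (fun c z => (h k).2.1 c _ z) _ _
  · have : Nonempty (T.Z k) := ⟨p⟩
    have h1 := (le_pr (p := (· ∈ F)) hp).trans hF
    rw [hx, mul_zero] at h1
    exact h1.not_gt (one_div_pos.2 (Nat.cast_pos.2 Nat.card_pos))

end Pool.Agent.PP
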