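import Pool.Agent.MP_13199e_lc.PP.Model

/-! PROJECT PP: a closed fragment with routed wires is a geometric circuit. -/

set_option autoImplicit false
set_option linter.unnecessarySimpa false

namespace Pool.Agent.PP.Comp

open Function

theorem forc_mono {f : Bool → Bool → Bool} {a b a' b' : Option Bool} {v : V4} (h : Forc f a b v)
    (ha : ∀ c, a' = some c → a = some c) (hb : ∀ c, b' = some c → b = some c) : Forc f a' b' v :=
  fun c k => h c fun x y hx hy => k x y (fun d e => hx d (ha d e)) fun d e => hy d (hb d e)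

/-- The copy of the channel `c`. -/
def cp (c : Ch) (fl : Bool) : Gate := (tab fun a _ => a, (c, fl), (c, fl))

theorem cp_ok {Mv Sl Z : Type} {ω : Wir Mv Sl} {mv : Mv → Z → Z} {x : Z → Sl → V4} {z : Z}
    {s : Sl} {c : Ch} {fl b : Bool} (h : GateOk ω mv (cp c fl) x z s)
    (k : rd fl (inp ω mv x z s c) = some b) : x z s = ofB b := by
  simp only [GateOk, cp, tt_tab, k] at h
  exact h.pure

/-- Layers, route chains and broadcast chains. -/
abbrev Slot (L : Type) (R N : ℕ) : Type := L ⊕ (L × Bool × Fin (R + 1)) ⊕ (L × Bool × Fin (N + 1))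

theorem perms {L Sl : Type} [Finite L] {R N : ℕ} (e : Slot L R N → Sl) (he : Injective e)
    (src : L → Bool → L) (fl : L → Bool → Bool) (ix : L × Bool → Fin N) (hi : Injective ix) :
    ∃ σ : Ch → Equiv.Perm Sl,
      (∀ a b (k : Fin R), σ 0 (e (.inr (.inl (a, b, k.castSucc)))) = e (.inr (.inl (a, b, k.succ))) ∧
        σ 1 (e (.inr (.inl (a, b, k.castSucc)))) = e (.inr (.inl (a, b, k.succ)))) ∧
      (∀ a, σ 2 (e (.inl a)) = e (.inr (.inl (a, false, 0))) ∧
        σ 3 (e (.inl a)) = e (.inr (.inl (a, true, 0)))) ∧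
      (∀ a b, σ 2 (e (.inr (.inl (a, b, Fin.last R)))) =
        e (.inr (.inr (src a b, fl a b, (ix (a, b)).succ)))) ∧
      (∀ a b (k : Fin N), σ 3 (e (.inr (.inr (a, b, k.succ)))) = e (.inr (.inr (a, b, k.castSucc)))) ∧
      ∀ a b, σ (bif b then 5 else 4) (e (.inr (.inr (a, b, 0)))) = e (.inl a) := by
  have ext : ∀ {α : Type} [Finite α] (f g : α → Slot L R N), Injective f → Injective g →
      ∃ σ : Equiv.Perm Sl, ∀ a, σ (e (f a)) = e (g a) := fun f g hf hg =>
    Equiv.Perm.exists_extending_pair _ _ (he.comp hf) (he.comp hg)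
  obtain ⟨s0, h0⟩ := ext (fun u : L × Bool × Fin R => .inr (.inl (u.1, u.2.1, u.2.2.castSucc)))
    (fun u => .inr (.inl (u.1, u.2.1, u.2.2.succ)))
    (by rintro ⟨a, b, k⟩ ⟨a', b', k'⟩ h; simpa using h)
    (by rintro ⟨a, b, k⟩ ⟨a', b', k'⟩ h; simpa using h)
  obtain ⟨s2, h2⟩ := ext (α := L ⊕ L × Bool)
    (Sum.elim .inl fun u => .inr (.inl (u.1, u.2, Fin.last R)))
    (Sum.elim (fun a => .inr (.inl (a, false, 0)))
      fun u => .inr (.inr (src u.1 u.2, fl u.1 u.2, (ix u).succ)))
    (by rintro (a | ⟨a, b⟩) (a' | ⟨a', b'⟩) h <;> simpa using h)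
    (by
      rintro (a | u) (a' | u') h
      · simpa using h
      · simp at h
      · simp at h
      · simp only [Sum.elim_inr, Sum.inr.injEq, Prod.mk.injEq, Fin.succ_inj] at h
        rw [hi h.2.2])
  obtain ⟨s3, h3⟩ := ext (α := L ⊕ L × Bool × Fin N)
    (Sum.elim .inl fun u => .inr (.inr (u.1, u.2.1, u.2.2.succ)))
    (Sum.elim (fun a => .inr (.inl (a, true, 0))) fun u => .inr (.inr (u.1, u.2.1, u.2.2.castSucc)))
    (by rintro (a | ⟨a, b, k⟩) (a' | ⟨a', b', k'⟩) h <;> simpa using h)
    (by rintro (a | ⟨a, b, k⟩) (a' | ⟨a', b', k'⟩) h <;> simpa using h)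
  obtain ⟨s4, h4⟩ := ext (fun a : L => .inr (.inr (a, false, 0))) .inl
    (fun a a' h => by simpa using h) Sum.inl_injective
  obtain ⟨s5, h5⟩ := ext (fun a : L => .inr (.inr (a, true, 0))) .inl
    (fun a a' h => by simpa using h) Sum.inl_injective
  refine ⟨![s0, s0, s2, s3, s4, s5], fun a b k => ⟨h0 (a, b, k), h0 (a, b, k)⟩,
    fun a => ⟨h2 (.inl a), h3 (.inl a)⟩, fun a b => h2 (.inr (a, b)),
    fun a b k => h3 (.inr (a, b, k)), fun a b => ?_⟩
  cases b
  exacts [h4 a, h5 a]

theorem run_take {A P : Type} (f : A → P → P) (d : A) (hd : ∀ p, f d p = p) (l : List A) (k : ℕ)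
    (p : P) : run f (l.take (k + 1)) p = f (l.getD k d) (run f (l.take k) p) := by
  rw [List.take_add_one, run_append, List.getD_eq_getElem?_getD]
  cases l[k]? with
  | none => exact (hd _).symm
  | some a => rfl

theorem pr_ex {P Sl : Type} [Finite P] [Finite Sl] (q : P → Sl → Prop) :
    pr (fun p => ∃ s, q p s) ≤ Nat.card Sl * pr fun u : P × Sl => q u.1 u.2 := by
  have := Fintype.ofFinite Sl
  refine (pr_exists_le fun s p => q p s).trans_eq ?_
  rw [pr_prod', av_eq, Nat.card_eq_fintype_card]
  cases isEmpty_or_nonempty Sl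
  · simp
  · have : (Fintype.card Sl : ℝ) ≠ 0 := by simp
    field_simp

theorem compS : CompS := by
  intro Ctx Wi Mv Sl _ G m0 R rt hR hc
  classical
  have := G.fin
  have := Fintype.ofFinite G.Lay
  have := Fintype.ofFinite Sl
  obtain ⟨N, ⟨ix⟩⟩ := Finite.exists_equiv_fin (G.Lay × Bool)
  have hN : N = 2 * Fintype.card G.Lay := by
    have := Fintype.card_congr ix
    simp at this
    omega
  rw [Nat.card_eq_fintype_card, Nat.card_eq_fintype_card] at hc
  obtain ⟨e⟩ : Nonempty (Slot G.Lay R N ↪ Sl) := Embedding.nonempty_of_card_le (by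
    refine le_trans ?_ hc
    simp only [Fintype.card_sum, Fintype.card_prod, Fintype.card_bool, Fintype.card_fin, hN]
    generalize Fintype.card G.Lay = L
    rcases Nat.eq_zero_or_pos L with rfl | h
    · simp
    have h1 : L ≤ L * (R + 1) := Nat.le_mul_of_pos_right _ (Nat.succ_pos R)
    nlinarith)
  obtain ⟨src, hsrc⟩ : ∃ src : G.Lay → Bool → G.Lay, ∀ a b, G.src a b = .inr (src a b) :=
    ⟨fun a b => (G.src a b).elim Empty.elim id, fun a b => by
      dsimp only
      rcases G.src a b with u | u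
      exacts [u.elim, rfl]⟩
  obtain ⟨σ, s0, s1, s2, s3, s4⟩ := perms e e.injective src G.flag ix ix.injective
  let lt : G.Lay → Bool → ℕ → Mv × (Ctx → Bool) := fun a b k =>
    (rt (G.wire a b)).getD k (m0, fun _ => false)
  let mT : Slot G.Lay R N → Mv := Sum.elim (fun _ => m0)
    (Sum.elim (fun u => (lt u.1 u.2.1 u.2.2).1) fun _ => m0)
  let gT : Ctx → Slot G.Lay R N → Gate := fun c => Sum.elim
    (fun a => (tab (G.f a c), (2, false), (3, false))) (Sum.elim
      (fun u => if u.2.2 = Fin.last R then cp 2 false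
        else cp (bif (lt u.1 u.2.1 u.2.2).2 c then 1 else 0) false)
      fun u => if u.2.2 = 0 then cp (bif u.2.1 then 5 else 4) u.2.1 else cp 3 false)
  refine ⟨(σ, fun c s => if c = 1 then extend e mT (fun _ => m0) s else m0),
    fun c => extend e (gT c) fun _ => cp 0 false, fun a => e (.inl a),
    fun P _ mv ctx h0 hinj x => ?_⟩
  generalize hω : ((σ, fun c s => if c = 1 then extend e mT (fun _ => m0) s else m0) : Wir Mv Sl) = ω
  have i1 : ∀ p s c, c ≠ 1 → inp ω mv x p s c = x p (σ c s) := fun p s c k => by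
    rw [← hω]
    simp only [inp, if_neg k, h0]
  have i2 : ∀ p t, inp ω mv x p (e t) 1 = x (mv (mT t) p) (σ 1 (e t)) := fun p t => by
    rw [← hω]
    simp only [inp, if_pos, e.injective.extend_apply]
  obtain ⟨B, hB⟩ : ∃ B : P → Prop, B = fun p =>
    ∃ s, ¬GateOk ω mv (extend e (gT (ctx p)) (fun _ => cp 0 false) s) x p s := ⟨_, rfl⟩
  have ok : ∀ p, ¬B p → ∀ t, GateOk ω mv (gT (ctx p) t) x p (e t) := fun p k t => by
    by_contra d
    exact k (hB ▸ ⟨e t, by rwa [e.injective.extend_apply]⟩)
  refine ⟨{p | ∃ u : G.Lay × Bool × Fin (R + 1),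
    B (run (lay mv ctx) ((rt (G.wire u.1 u.2.1)).take u.2.2) p)}, ?_, fun p hp a => ?_⟩
  · have b1 : pr B ≤ Nat.card Sl *
        viol ω mv (fun p => extend e (gT (ctx p)) fun _ => cp 0 false) x := hB ▸ pr_ex _
    have b2 : Nat.card (G.Lay × Bool × Fin (R + 1)) ≤ Nat.card Sl :=
      Nat.card_le_card_of_injective (fun u => e (.inr (.inl u)))
        (e.injective.comp (Sum.inr_injective.comp Sum.inl_injective))
    refine (pr_exists_le' (c := pr B) fun u => (pr_bij (Finite.injective_iff_bijective.1 ?_)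
      B).le).trans ?_
    · have : ∀ l : List (Mv × (Ctx → Bool)), (∀ a ∈ l, Injective (lay mv ctx a)) →
          Injective (run (lay mv ctx) l) := fun l => by
        induction l with
        | nil => exact fun _ => injective_id
        | cons m l ih => exact fun h => (ih fun a ha => h a (by simp [ha])).comp (h m (by simp))
      exact this _ fun a ha => hinj _ a (List.mem_of_mem_take ha)
    · rw [sq, mul_assoc]
      exact mul_le_mul (Nat.cast_le.2 b2) b1 (pr_nonneg _) (Nat.cast_nonneg _)
  have good : ∀ b (k : Fin (R + 1)), ¬B (run (lay mv ctx) ((rt (G.wire a b)).take k) p) :=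
    fun b k d => hp ⟨(a, b, k), d⟩
  have key : ∀ b c, rd (G.flag a b) (x (run (lay mv ctx) (rt (G.wire a b)) p) (e (.inl (src a b)))) =
      some c → x p (e (.inr (.inl (a, b, 0)))) = ofB c := by
    intro b c h
    have gq := ok _ (good b (Fin.last R))
    have bc : ∀ k : Fin (N + 1), x (run (lay mv ctx) ((rt (G.wire a b)).take (Fin.last R)) p)
        (e (.inr (.inr (src a b, G.flag a b, k)))) = ofB c := fun k => by
      induction k using Fin.induction with
      | zero =>
        have := gq (.inr (.inr (src a b, G.flag a b, 0)))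
        simp only [gT, Sum.elim_inr, if_pos] at this
        refine cp_ok this ?_
        rw [i1 _ _ _ (by cases G.flag a b <;> decide), s4, Fin.val_last,
          List.take_of_length_le (hR _), h]
      | succ k ih =>
        have := gq (.inr (.inr (src a b, G.flag a b, k.succ)))
        simp only [gT, Sum.elim_inr, if_neg (Fin.succ_ne_zero k)] at this
        refine cp_ok this ?_
        rw [i1 _ _ _ (by decide), s3, ih, rd_ofB]
    have rc : ∀ k : Fin (R + 1), x (run (lay mv ctx) ((rt (G.wire a b)).take k) p)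
        (e (.inr (.inl (a, b, k)))) = ofB c := fun k => by
      induction k using Fin.reverseInduction with
      | last =>
        have := gq (.inr (.inl (a, b, Fin.last R)))
        simp only [gT, Sum.elim_inr, Sum.elim_inl, if_pos] at this
        refine cp_ok this ?_
        rw [i1 _ _ _ (by decide), s2, bc, rd_ofB]
      | cast k ih =>
        have := ok _ (good b k.castSucc) (.inr (.inl (a, b, k.castSucc)))
        simp only [gT, Sum.elim_inr, Sum.elim_inl, if_neg (Fin.castSucc_lt_last k).ne] at this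
        refine cp_ok this ?_
        rw [Fin.val_succ, run_take _ (m0, fun _ => false) (fun _ => rfl), lay] at ih
        rw [Fin.val_castSucc]
        change x (bif (lt a b k).2 _ then mv (lt a b k).1 _ else _) _ = _ at ih
        revert ih
        cases (lt a b k).2 (ctx (run (lay mv ctx) ((rt (G.wire a b)).take k) p)) <;> intro ih
        · rw [cond_false] at ih ⊢
          rw [i1 _ _ _ (by decide), (s0 a b k).1, ih, rd_ofB]
        · rw [cond_true] at ih ⊢
          rw [i2, (s0 a b k).2]
          exact (congrArg _ ih).trans (rd_ofB _ _)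
    exact rc 0
  have := ok p (good false 0) (.inl a)
  simp only [GateOk, gT, Sum.elim_inl, tt_tab] at this
  rw [i1 _ _ _ (by decide), i1 _ _ _ (by decide), (s1 a).1, (s1 a).2] at this
  rw [hsrc, hsrc]
  exact forc_mono this (fun c k => by rw [key false c k, rd_ofB])
    fun c k => by rw [key true c k, rd_ofB]

end Pool.Agent.PP.Comp
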