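import Pool.Agent.MP_13199e_lc.PP.Model

/-! PROJECT PP, block G: numbering of nodes, flattening. -/

set_option autoImplicit false

namespace Pool.Agent.PP

open Pool.Agent.MP_13199e_lc Pool.Agent.PolyT Function

/-- The plain circuit with the nodes `l`, the gates `G` and the neighbours `nb`. -/
def flatL {V : Type} [BEq V] (l : List V) (G : V → Gate) (nb : V → Ch → V) : List PGate :=
  l.map fun v => ((G v).1, (l.idxOf (nb v (G v).2.1.1), (G v).2.1.2),
    (l.idxOf (nb v (G v).2.2.1), (G v).2.2.2))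

theorem flat_ok {Z Sl Mv V : Type} [Finite Z] [Finite Sl] [Nonempty Z] [Nonempty Sl] [BEq V]
    [LawfulBEq V] {l : List V} (nd : l.Nodup) {e : Z × Sl → V} (he : Injective e)
    (hl : ∀ v, v ∈ l ↔ ∃ u, e u = v) (ω : Wir Mv Sl) (mv : Mv → Z → Z) (C : Z → Sl → Gate)
    {G : V → Gate} {nb : V → Ch → V} (hG : ∀ z s, G (e (z, s)) = C z s)
    (hb : ∀ z s c, nb (e (z, s)) c = e (mv (ω.2 c s) z, ω.1 c s)) :
    PWf (flatL l G nb) ∧
      ∀ y, pviol (flatL l G nb) y = viol ω mv C fun z s => val y (l.idxOf (e (z, s))) := by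
  have len : (flatL l G nb).length = l.length := List.length_map _
  have lt : ∀ u, l.idxOf (e u) < (flatL l G nb).length := fun u =>
    len ▸ List.idxOf_lt_length_of_mem ((hl _).2 ⟨u, rfl⟩)
  refine ⟨⟨List.ne_nil_of_length_pos ((Nat.zero_le _).trans_lt (lt (Classical.arbitrary _))),
    fun g hg => ?_⟩, fun y => ?_⟩
  · obtain ⟨v, hv, rfl⟩ := List.mem_map.1 hg
    obtain ⟨⟨z, s⟩, rfl⟩ := (hl v).1 hv
    simp only [hb]
    exact ⟨lt _, lt _⟩
  have bij : Bijective fun u => (⟨l.idxOf (e u), lt u⟩ : Fin (flatL l G nb).length) := by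
    refine ⟨fun u u' h => he ?_, fun i => ?_⟩
    · exact (List.idxOf_inj ((hl _).2 ⟨u, rfl⟩)).1 (congrArg Fin.val h)
    · obtain ⟨u, hu⟩ := (hl _).1 (List.getElem_mem (len ▸ i.2 : i.1 < l.length))
      exact ⟨u, Fin.ext (by simp only [hu]; exact nd.idxOf_getElem _ _)⟩
  rw [pviol, ← pr_bij bij]
  refine pr_congr fun ⟨z, s⟩ => not_congr ?_
  have g : (flatL l G nb)[l.idxOf (e (z, s))]? = some ((C z s).1,
      (l.idxOf (e (mv (ω.2 (C z s).2.1.1 s) z, ω.1 (C z s).2.1.1 s)), (C z s).2.1.2),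
      (l.idxOf (e (mv (ω.2 (C z s).2.2.1 s) z, ω.1 (C z s).2.2.1 s)), (C z s).2.2.2)) := by
    rw [flatL, List.getElem?_map, List.getElem?_idxOf ((hl _).2 ⟨_, rfl⟩), Option.map_some, hG,
      hb, hb]
  exact ⟨fun h => h _ g, fun h g' hg' => Option.some.inj (g.symm.trans hg') ▸ h⟩

end Pool.Agent.PP
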