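import Pool.Agent.MP_13199e_lc.PP.G.Pt

/-! PROJECT PP, block G: tables on a level and their iteration. -/

set_option autoImplicit false
set_option linter.unusedSectionVars false

namespace Pool.Agent.PP

open Pool.Agent.PolyT Pool.Agent.H82 N487b59b3 Function

namespace Tow

variable {Mv Λ : Type} {T : Tow Mv Λ} [Finite Mv] [Finite Λ] [N487b59b3 Mv] [N487b59b3 Λ]
  {α : Type} [N487b59b3 α]

theorem enc_lev_mono {i k : T.Lev} (h : i.k ≤ k.k) :
    (bitEncode i).length ≤ (bitEncode k).length := by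
  change (bitEncode (T.tabs i.k)).length ≤ (bitEncode (T.tabs k.k)).length
  generalize k.k = n at h
  induction h with
  | refl => exact le_rfl
  | step _ ih => exact ih.trans (enc_sublist_le (List.sublist_cons_self _ _))

theorem lev_bd (h1 : 1 ≤ Nat.card Λ) : ∃ c, ∀ k : T.Lev,
    (bitEncode k).length ≤ k.k * (2 * (Nat.card Λ ^ k.k * (c * k.k + c)) + 1) := by
  obtain ⟨B, hB⟩ := fin_bd Λ
  obtain ⟨B', hB'⟩ := fin_bd Mv
  refine ⟨4 * (2 * B + 1) + 3 + Nat.card Mv * (4 * (2 * B + 1) + 8 * B' + 6), fun ⟨K⟩ => ?_⟩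
  have hd : ∀ p : T.Pt, p.lv ≤ K → (bitEncode (T.dig p)).length ≤ K * (2 * B + 1) := fun p hp =>
    (enc_len_le fun x _ => hB x).trans (Nat.mul_le_mul_right _ ((T.length_dig p).trans_le hp))
  have ht : ∀ i ≤ K, (bitEncode (T.tb i)).length ≤ Nat.card Λ ^ K * (2 * (2 * (K * (2 * B + 1)) +
      1 + Nat.card Mv * (2 * (2 * B' + 1 + K * (2 * B + 1)) + 1)) + 1) := fun i hi => by
    refine (enc_len_le fun x hx => ?_).trans (Nat.mul_le_mul_right _ ?_)
    · obtain ⟨p, hp, rfl⟩ := List.mem_map.1 hx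
      have h2 := hd p ((T.mem_all.1 hp).trans_le hi)
      have h3 := enc_len_le (B := 2 * B' + 1 + K * (2 * B + 1))
        (l := (enum Mv).map fun m => (m, T.dig (T.mvP m p))) fun y hy => by
          obtain ⟨m, -, rfl⟩ := List.mem_map.1 hy
          have := hd (T.mvP m p) ((T.mem_all.1 hp).trans_le hi)
          have := hB' m
          rw [length_enc_pair]
          dsimp only
          omega
      rw [List.length_map, length_enum] at h3
      rw [length_enc_pair]
      dsimp only
      omega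
    · rw [tb, List.length_map, length_all]
      exact Nat.pow_le_pow_right h1 hi
  have hs : ∀ i ≤ K, ∀ x ∈ T.tabs i, ∃ j ≤ K, x = T.tb j := fun i hi => by
    induction i with
    | zero => simp [tabs]
    | succ i ih =>
      intro x hx
      rcases List.mem_cons.1 hx with e | e
      · exact ⟨_, hi, e⟩
      · exact ih (by omega) x e
  refine (enc_len_le (l := T.tabs K) fun x hx => ?_).trans_eq (by rw [length_tabs])
  obtain ⟨j, hj, rfl⟩ := hs K le_rfl x hx
  refine (ht j hj).trans (Nat.mul_le_mul_left _ ?_)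
  dsimp only
  nlinarith [Nat.zero_le (K * Nat.card Mv * B'), Nat.zero_le (K * Nat.card Mv),
    Nat.zero_le (Nat.card Mv * B), Nat.zero_le K, Nat.zero_le B]

/-- A level of logarithmic height is polynomial time. -/
theorem p_mkLev (h2 : 2 ≤ Nat.card Λ) {u : α → List Bool} (hu : Poly u)
    (hb : Bd bitEncode fun a => Nat.card Λ ^ (u a).length) :
    Poly fun a => (⟨(u a).length⟩ : T.Lev) := by
  obtain ⟨c, hc⟩ := lev_bd (T := T) (by omega)
  have key : ∀ i, Lev.succ^[i] (⟨0⟩ : T.Lev) = ⟨i⟩ := fun i => by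
    induction i with
    | zero => rfl
    | succ i ih => rw [iterate_succ_apply', ih]; rfl
  have hl : Bd bitEncode fun a => (u a).length := hu.bd.of_le fun a => length_le_enc _
  refine (Poly.iterate (p_succ p_id) hu.toRaw (p_const ⟨0⟩) (hl.mul (((Bd.const 2).mul (hb.mul
    (((Bd.const c).mul hl).add (Bd.const c)))).add (Bd.const 1))) fun a i hi => ?_).congr
    fun a => key _
  rw [key]
  exact (enc_lev_mono (k := ⟨(u a).length⟩) hi).trans (hc _)

/-- Tables on a level. -/
abbrev Tb (T : Tow Mv Λ) (β : Type) : Type := T.Lev × List β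

variable {β : Type}

noncomputable def mkT (k : T.Lev) (F : T.Pt → β) : T.Tb β := (k, (T.all k.k).map F)

noncomputable def look [Inhabited β] (t : T.Tb β) (p : T.Pt) : β :=
  t.2.getD ((T.all t.1.k).idxOf p) default

theorem look_mkT [Inhabited β] {k : T.Lev} (F : T.Pt → β) {p : T.Pt} (h : p.lv = k.k) :
    look (mkT k F) p = F p := by
  have := List.idxOf_lt_length_of_mem (T.mem_all.2 h)
  simp [look, mkT, this]

variable [N487b59b3 β]

@[fun_prop] theorem p_mkT {k : α → T.Lev} {F : α → T.Pt → β} (hk : Poly k)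
    (hF : Poly fun p : α × T.Pt => F p.1 p.2) : Poly fun a => mkT (k a) (F a) :=
  hk.pair (p_map hF (p_allP hk))

@[fun_prop] theorem p_look [Inhabited β] {t : α → T.Tb β} {p : α → T.Pt} (ht : Poly t)
    (hp : Poly p) : Poly fun a => look (t a) (p a) :=
  ht.snd.getD (p_idxOf hp (p_allP ht.fst)) (p_const _)

/-- Iteration of a map on tables below a level. -/
theorem p_iter (h1 : 1 ≤ Nat.card Λ) [Finite β] {σ : Type} [N487b59b3 σ] [Finite σ]
    {h : List σ × T.Tb β → List σ × T.Tb β} (hh : Poly h) {u : α → List Bool} (hu : Poly u)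
    {s : α → List σ × T.Tb β} (hs : Poly s) {K : α → T.Lev} (hK : Poly K)
    (hb : ∀ a i, i ≤ (u a).length → (h^[i] (s a)).1.length ≤ (s a).1.length + i ∧
      (h^[i] (s a)).2.1.k ≤ (K a).k ∧ ∃ F, (h^[i] (s a)).2 = mkT (h^[i] (s a)).2.1 F) :
    Poly fun a => h^[(u a).length] (s a) := by
  obtain ⟨B, hB⟩ := fin_bd β
  obtain ⟨B', hB'⟩ := fin_bd σ
  refine Poly.iterate hh hu.toRaw hs ((((Bd.const 2).mul ((hs.fst.bd.add hu.bd).mul
    (Bd.const (2 * B' + 1)))).add (Bd.const 1)).add ((((Bd.const 2).mul hK.bd).add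
    (Bd.const 1)).add ((p_allP hK).bd.mul (Bd.const (2 * B + 1))))) fun a i hi => ?_
  obtain ⟨h0, h2, F, h3⟩ := hb a i hi
  have h4 := (enc_len_le (l := (h^[i] (s a)).1) fun x _ => hB' x).trans (Nat.mul_le_mul_right _
    (h0.trans (Nat.add_le_add (length_le_enc _) (hi.trans (length_le_enc _)))))
  have h5 := enc_lev_mono h2
  have h6 : (bitEncode (h^[i] (s a)).2.2).length ≤
      (bitEncode (T.all (K a).k)).length * (2 * B + 1) := by
    refine (enc_len_le fun x _ => hB x).trans (Nat.mul_le_mul_right _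
      (le_trans ?_ (length_le_enc _)))
    rw [h3, mkT, List.length_map, length_all, length_all]
    exact Nat.pow_le_pow_right h1 h2
  rw [length_enc_pair, length_enc_pair]
  omega

end Tow

end Pool.Agent.PP
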