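import Pool.Agent.MP_13199e_lc.PP.G.Kit

/-! PROJECT PP, block G: the points of a tower, encoded with the tables of the moves. -/

set_option autoImplicit false
set_option linter.unusedSectionVars false

namespace Pool.Agent.PP

open Pool.Agent.PolyT Pool.Agent.H82 N487b59b3 Function

/-- The list of all elements of a finite type. -/
noncomputable def enum (α : Type) [Finite α] : List α :=
  (@Finset.univ α (Fintype.ofFinite α)).toList

@[simp] theorem mem_enum {α : Type} [Finite α] (a : α) : a ∈ enum α := by simp [enum]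

theorem nodup_enum (α : Type) [Finite α] : (enum α).Nodup := Finset.nodup_toList _

theorem length_enum (α : Type) [Finite α] : (enum α).length = Nat.card α := by
  rw [enum, Finset.length_toList, @Nat.card_eq_fintype_card α (Fintype.ofFinite α)]; rfl

namespace Tow

variable {Mv Λ : Type} (T : Tow Mv Λ)

/-- Points of all levels. -/
structure Pt where
  lv : ℕ
  z : T.Z lv

/-- Levels. -/
structure Lev (T : Tow Mv Λ) where
  k : ℕ

noncomputable instance : DecidableEq T.Pt := Classical.decEq _

def mvP (m : Mv) (p : T.Pt) : T.Pt := ⟨p.lv, T.mv p.lv m p.z⟩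

def up (p : T.Pt) (l : Λ) : T.Pt := ⟨p.lv + 1, (T.sp p.lv).symm (p.z, l)⟩

def down : T.Pt → T.Pt
  | ⟨0, z⟩ => ⟨0, z⟩
  | ⟨k + 1, y⟩ => ⟨k, (T.sp k y).1⟩

def digZ : ∀ k, T.Z k → List Λ
  | 0, _ => []
  | k + 1, y => (T.sp k y).2 :: digZ k (T.sp k y).1

/-- The labels of a point. -/
def dig (p : T.Pt) : List Λ := T.digZ p.lv p.z

theorem sub0 (z z' : T.Z 0) : z = z' := (Nat.card_eq_one_iff_unique.1 T.one).1.elim z z'

theorem run_mvP (w : List Mv) (k : ℕ) (z : T.Z k) :
    run T.mvP w ⟨k, z⟩ = ⟨k, run (T.mv k) w z⟩ := by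
  induction w generalizing z with
  | nil => rfl
  | cons m w ih => exact ih _

theorem run_lv (w : List Mv) (p : T.Pt) : (run T.mvP w p).lv = p.lv := by
  obtain ⟨k, z⟩ := p
  rw [run_mvP]

theorem dig_up (p : T.Pt) (l : Λ) : T.dig (T.up p l) = l :: T.dig p := by simp [dig, up, digZ]

theorem length_dig (p : T.Pt) : (T.dig p).length = p.lv := by
  obtain ⟨k, z⟩ := p
  induction k with
  | zero => rfl
  | succ k ih => exact congrArg (· + 1) (ih _)

theorem dig_inj : Injective T.dig := by
  rintro ⟨k, z⟩ ⟨k', z'⟩ h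
  obtain rfl : k = k' := (T.length_dig _).symm.trans ((congrArg _ h).trans (T.length_dig _))
  induction k with
  | zero => rw [T.sub0 z z']
  | succ k ih =>
    obtain ⟨h1, h2⟩ := List.cons.inj h
    have h3 : (T.sp k z).1 = (T.sp k z').1 := by simpa using ih _ _ h2
    rw [(T.sp k).injective (Prod.ext h3 h1)]

theorem mvP_up (m : Mv) (p : T.Pt) (l : Λ) :
    T.mvP m (T.up p l) = T.up (run T.mvP (T.cw m l) p) (T.β m l) := by
  obtain ⟨k, z⟩ := p
  rw [run_mvP]
  simp only [mvP, up]
  congr 1
  rw [Equiv.eq_symm_apply, T.self]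
  simp

variable [Finite Mv] [Finite Λ]

/-- The points of a level. -/
noncomputable def all : ℕ → List T.Pt
  | 0 => [⟨0, Classical.choice (Nat.card_pos_iff.1 (T.one ▸ Nat.one_pos)).1⟩]
  | k + 1 => (all k).flatMap fun p => (enum Λ).map (T.up p)

theorem mem_all {k : ℕ} {p : T.Pt} : p ∈ T.all k ↔ p.lv = k := by
  induction k generalizing p with
  | zero =>
    obtain ⟨k, z⟩ := p
    refine ⟨fun h => by rw [List.mem_singleton.1 h], ?_⟩
    rintro (rfl : k = 0)
    exact List.mem_singleton.2 (congrArg _ (T.sub0 _ _))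
  | succ k ih =>
    simp only [all, List.mem_flatMap, List.mem_map, ih]
    refine ⟨fun ⟨q, h, l, _, e⟩ => by rw [← e, ← h]; rfl, ?_⟩
    obtain ⟨k', z⟩ := p
    rintro (rfl : k' = k + 1)
    exact ⟨⟨k, (T.sp k z).1⟩, rfl, (T.sp k z).2, mem_enum _, by simp [up]⟩

theorem nodup_all (k : ℕ) : (T.all k).Nodup := by
  induction k with
  | zero => exact List.nodup_singleton _
  | succ k ih =>
    have hi : Injective fun u : T.Pt × Λ => T.up u.1 u.2 := fun u v h => by
      have h1 := congrArg T.dig h
      simp only [dig_up, List.cons.injEq] at h1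
      exact Prod.ext (T.dig_inj h1.2) h1.1
    have := (ih.product (nodup_enum Λ)).map hi
    simpa [all, SProd.sprod, List.product, List.map_flatMap, Function.comp_def] using this

theorem length_all (k : ℕ) : (T.all k).length = Nat.card Λ ^ k := by
  induction k with
  | zero => rfl
  | succ k ih => simp [all, List.length_flatMap, length_enum, ih, pow_succ]

/-- The table of the moves on a level. -/
noncomputable def tb (k : ℕ) : List (List Λ × List (Mv × List Λ)) :=
  (T.all k).map fun p => (T.dig p, (enum Mv).map fun m => (m, T.dig (T.mvP m p)))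

noncomputable def tabs : ℕ → List (List (List Λ × List (Mv × List Λ)))
  | 0 => []
  | k + 1 => T.tb (k + 1) :: tabs k

theorem length_tabs (k : ℕ) : (T.tabs k).length = k := by
  induction k with
  | zero => rfl
  | succ k ih => exact congrArg (· + 1) ih

variable [N487b59b3 Mv] [N487b59b3 Λ] {α : Type} [N487b59b3 α]

noncomputable instance : N487b59b3 T.Lev :=
  encVia (fun k => T.tabs k.k) fun ⟨k⟩ ⟨k'⟩ h => congrArg Lev.mk
    ((T.length_tabs k).symm.trans ((congrArg _ h).trans (T.length_tabs k')))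

noncomputable instance : N487b59b3 T.Pt :=
  encVia (fun p => ((⟨p.lv⟩ : T.Lev), T.dig p)) fun _ _ h => T.dig_inj (congrArg Prod.snd h)

variable {T}

/-- The level of a point. -/
def Pt.lev (p : T.Pt) : T.Lev := ⟨p.lv⟩

theorem p_rawP {p : α → T.Pt} (hp : Poly p) : Poly fun a => ((p a).lev, T.dig (p a)) :=
  poly_raw hp fun _ => rfl

@[fun_prop] theorem p_lev {p : α → T.Pt} (hp : Poly p) : Poly fun a => (p a).lev := (p_rawP hp).fst

@[fun_prop] theorem p_dig {p : α → T.Pt} (hp : Poly p) : Poly fun a => T.dig (p a) :=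
  (p_rawP hp).snd

theorem poly_pt {p : α → T.Pt} (h1 : Poly fun a => (p a).lev) (h2 : Poly fun a => T.dig (p a)) :
    Poly p := poly_raw (h1.pair h2) fun _ => rfl

theorem p_tabs {k : α → T.Lev} (hk : Poly k) : Poly fun a => T.tabs (k a).k :=
  poly_raw hk fun _ => rfl

theorem p_tb {k : α → T.Lev} (hk : Poly k) : Poly fun a => T.tb (k a).k :=
  ((p_tabs hk).headD (p_const (T.tb 0))).congr fun a => by cases (k a).k <;> rfl

@[fun_prop] theorem p_mvP {m : α → Mv} {p : α → T.Pt} (hm : Poly m) (hp : Poly p) :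
    Poly fun a => T.mvP (m a) (p a) := by
  classical
  refine poly_pt (p_lev (p := p) hp) ((p_lk (p_lk (p_tb (p_lev hp)) (p_dig hp) (p_const [])) hm
    (p_const [])).congr fun a => ?_)
  rw [tb, lk_map (x := p a) (l := T.all (p a).lev.k) _ (T.mem_all.2 rfl) fun y _ e => by
    rw [T.dig_inj e]]
  exact lk_map (key := fun m => m) _ (mem_enum _) fun y _ e => by rw [e]

@[fun_prop] theorem p_allP {k : α → T.Lev} (hk : Poly k) : Poly fun a => T.all (k a).k := by
  have h := p_tb hk
  refine poly_raw (g := fun a => (T.tb (k a).k).map fun e => (k a, e.1)) (by fun_prop) fun a => ?_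
  rw [← enc_map (fun p : T.Pt => (p.lev, T.dig p)) (fun _ => rfl), tb, List.map_map]
  refine congrArg _ (List.map_congr_left fun p hp => ?_)
  rw [Pt.lev, T.mem_all.1 hp]
  rfl

theorem enc_pt_le {p q : T.Pt} (h : p.lv = q.lv) :
    (bitEncode p).length ≤ 2 * (bitEncode q).length := by
  have h1 : ∀ p : T.Pt, (bitEncode p).length =
      2 * (bitEncode (T.tabs p.lv)).length + 1 + (bitEncode (T.dig p)).length := fun p =>
    length_enc_pair (p.lev, T.dig p)
  have h2 : (bitEncode (T.dig p)).length ≤ (bitEncode (T.tabs p.lv)).length := by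
    obtain ⟨k, z⟩ := p
    cases k with
    | zero => exact le_rfl
    | succ k =>
      have h3 := enc_mem_le (List.mem_map_of_mem (f := fun p => (T.dig p, (enum Mv).map fun m =>
        (m, T.dig (T.mvP m p)))) (T.mem_all.2 (rfl : (⟨k + 1, z⟩ : T.Pt).lv = k + 1)))
      rw [length_enc_pair] at h3
      refine le_trans ?_ (h3.trans (enc_mem_le (List.mem_cons_self (l := T.tabs k))))
      dsimp only
      omega
  rw [h1, h1, ← h]
  omega

@[fun_prop] theorem p_run {w : α → List Mv} {p : α → T.Pt} (hw : Poly w) (hp : Poly p) :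
    Poly fun a => run T.mvP (w a) (p a) :=
  Poly.foldl (f := fun _ z m => T.mvP m z) (by fun_prop) hw hp ((Bd.const 2).mul hp.bd)
    fun _ _ => enc_pt_le (T.run_lv _ _)

/-- The next level. -/
def Lev.succ (k : T.Lev) : T.Lev := ⟨k.k + 1⟩

/-- The previous level. -/
def Lev.pred (k : T.Lev) : T.Lev := ⟨k.k - 1⟩

@[fun_prop] theorem p_succ {k : α → T.Lev} (hk : Poly k) : Poly fun a => (k a).succ := by
  have h1 := p_tabs hk
  have h2 : Poly fun u : Mv × Λ => T.cw u.1 u.2 := poly_fin _
  have h3 : Poly fun u : Mv × Λ => T.β u.1 u.2 := poly_fin _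
  refine poly_raw (g := fun a => ((T.all (k a).k).flatMap fun p => (enum Λ).map fun l =>
    (l :: T.dig p, (enum Mv).map fun m => (m, T.β m l :: T.dig (run T.mvP (T.cw m l) p)))) ::
      T.tabs (k a).k) (by fun_prop) fun a => ?_
  change _ = bitEncode (T.tb ((k a).k + 1) :: T.tabs (k a).k)
  simp only [tb, all, List.map_flatMap, List.map_map, Function.comp_def, mvP_up, dig_up]

@[fun_prop] theorem p_pred {k : α → T.Lev} (hk : Poly k) : Poly fun a => (k a).pred :=
  poly_raw (p_tabs hk).tail fun a => by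
    change _ = bitEncode (T.tabs ((k a).k - 1))
    cases (k a).k <;> rfl

@[fun_prop] theorem p_up {p : α → T.Pt} {l : α → Λ} (hp : Poly p) (hl : Poly l) :
    Poly fun a => T.up (p a) (l a) :=
  poly_pt (p_succ (p_lev hp)) ((hl.cons (p_dig hp)).congr fun _ => (T.dig_up _ _).symm)

@[fun_prop] theorem p_down {p : α → T.Pt} (hp : Poly p) : Poly fun a => T.down (p a) := by
  refine poly_pt ((p_pred (p_lev hp)).congr fun a => ?_) ((p_dig hp).tail.congr fun a => ?_) <;>
    obtain ⟨k, z⟩ := p a <;> cases k <;> rfl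

/-- The point with constant labels. -/
noncomputable def orgP (l : Λ) (k : T.Lev) : T.Pt := ⟨k.k, T.org l k.k⟩

@[fun_prop] theorem p_orgP (l : Λ) {k : α → T.Lev} (hk : Poly k) :
    Poly fun a => orgP l (k a) := by
  have h := p_tabs hk
  refine poly_pt hk (Poly.congr (f := fun a => (T.tabs (k a).k).map fun _ => l) (by fun_prop)
    fun a => ?_)
  unfold orgP
  induction (k a).k with
  | zero => rfl
  | succ k ih => exact (congrArg (l :: ·) ih).trans (T.dig_up ⟨k, T.org l k⟩ l).symm

end Tow

end Pool.Agent.PP
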