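import Pool.Agent.MP_13199e_lc.PP.Model

/-! PROJECT PP, TOG: from plain circuits to generalized circuits. -/

set_option autoImplicit false

namespace Pool.Agent.PP

open Pool.Agent.MP_13199e_lc Pool.Agent.PolyT Pool.Agent.H82

namespace TG

/-- The value of a number. -/
def toV (q : ℚ) : V4 :=
  if q ≤ 1 / 20 then 0 else if q ≤ 1 / 2 then 1 else if q < 19 / 20 then 2 else 3

theorem num_eq (q : ℚ) : (q.num.toNat : ℚ) = max q 0 * q.den := by
  rcases le_total q 0 with h | h
  · rw [max_eq_right h, Int.toNat_of_nonpos (Rat.num_nonpos.2 h)]; simp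
  · rw [max_eq_left h, Rat.mul_den_eq_num, ← Int.cast_natCast,
      Int.toNat_of_nonneg (Rat.num_nonneg.2 h)]

theorem poly_toV : Poly toV := by
  have h : Poly fun q : ℚ => (((q.num.toNat, (-q.num).toNat), q.den) : (ℕ × ℕ) × ℕ) := Poly.id
  have h' : Poly fun p : (ℕ × ℕ) × ℕ => (bif ltB p.2 (20 * p.1.1) then bif ltB p.2 (2 * p.1.1) then
      bif ltB (20 * p.1.1) (19 * p.2) then 2 else 3 else 1 else 0 : V4) := by fun_prop
  refine (h'.comp h).congr fun q => ?_
  have d : (0 : ℚ) < q.den := Nat.cast_pos.2 q.den_pos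
  have k : ∀ m n : ℕ, (m * q.den < n * q.num.toNat ↔ (m : ℚ) < n * max q 0) ∧
      (n * q.num.toNat < m * q.den ↔ n * max q 0 < (m : ℚ)) := fun m n => by
    rw [← Nat.cast_lt (α := ℚ), ← Nat.cast_lt (α := ℚ), Nat.cast_mul, Nat.cast_mul, num_eq,
      ← mul_assoc, mul_lt_mul_iff_left₀ d, mul_lt_mul_iff_left₀ d]
    exact ⟨Iff.rfl, Iff.rfl⟩
  have k1 := (k 1 20).1
  have k2 := (k 1 2).1
  have k3 := (k 19 20).2
  rw [one_mul] at k1 k2
  simp only [Bool.cond_eq_ite, ltB_iff, k1, k2, k3, toV]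
  push_cast
  rcases le_total q 0 with u | u
  · rw [max_eq_right u, if_neg (by norm_num), if_pos (by linarith)]
  · rw [max_eq_left u]
    split_ifs <;> first | rfl | (exfalso; linarith)

/-- The number `x` represents the partial bit `o`. -/
def Rep (o : Option Bool) (x : ℚ) : Prop :=
  (o = some true → |x - 1| ≤ 1 / 20) ∧ (o = some false → |x| ≤ 1 / 20)

def kn (a : Option Bool) : Option Bool := a.map not

def ko (a b : Option Bool) : Option Bool :=
  if a = some true ∨ b = some true then some true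
  else if a = some false ∧ b = some false then some false else none

def ka (a b : Option Bool) : Option Bool :=
  if a = some false ∨ b = some false then some false
  else if a = some true ∧ b = some true then some true else none

def km (s t : Bool) (b : Option Bool) : Option Bool :=
  bif s then (bif t then some true else kn b) else (bif t then b else some false)

variable {α x y z : ℚ} {a b : Option Bool}

theorem r_not (h : GOk (1 / 20) 8 α x y z) (ha : Rep a x) : Rep (kn a) z := by
  have k := h.2.2.2.2.2.2.2.2 rfl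
  rcases a with _ | _ | _ <;> simp only [Rep, kn] at * <;> simp_all

theorem r_or (h : GOk (1 / 20) 6 α x y z) (ha : Rep a x) (hb : Rep b y) : Rep (ko a b) z := by
  have k := h.2.2.2.2.2.2.1 rfl
  unfold ko
  split_ifs with u v
  · exact ⟨fun _ => k.1 (u.imp ha.1 hb.1), nofun⟩
  · exact ⟨nofun, fun _ => k.2 ⟨ha.2 v.1, hb.2 v.2⟩⟩
  · exact ⟨nofun, nofun⟩

theorem r_and (h : GOk (1 / 20) 7 α x y z) (ha : Rep a x) (hb : Rep b y) : Rep (ka a b) z := by
  have k := h.2.2.2.2.2.2.2.1 rfl
  unfold ka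
  split_ifs with u v
  · exact ⟨nofun, fun _ => k.2 (u.imp ha.2 hb.2)⟩
  · exact ⟨fun _ => k.1 ⟨ha.1 v.1, hb.1 v.2⟩, nofun⟩
  · exact ⟨nofun, nofun⟩

/-- The threshold of a read. -/
def th (fl : Bool) : ℚ := bif fl then 3 / 4 else 1 / 4

theorem r_rd {fl : Bool} {u v w : ℚ} (h0 : GOk (1 / 20) 0 (th fl) u v w)
    (h : GOk (1 / 20) 5 α w y z) : Rep (rd fl (toV y)) z := by
  have k := h.2.2.2.2.2.1 rfl
  have l := abs_le.1 (h0.1 rfl)
  unfold toV
  cases fl <;> simp only [th, cond] at l <;> split_ifs <;>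
    refine ⟨fun e => ?_, fun e => ?_⟩ <;>
    first | exact absurd e (by decide) | exact k.1 (by linarith) | exact k.2 (by linarith)

/-- The gate that computes a function of one bit. -/
def mx (s t : Bool) (n : ℕ) : ℕ × ℚ × ℕ × ℕ :=
  (bif s then (bif t then 0 else 8) else (bif t then 6 else 0), bif s && t then 1 else 0, n, n)

theorem r_mx {s t : Bool} {n : ℕ} (h : GOk (1 / 20) (mx s t n).1 (mx s t n).2.1 y y z)
    (hb : Rep b y) : Rep (km s t b) z := by
  cases s <;> cases t
  · exact ⟨nofun, fun _ => by simpa [mx] using h.1 rfl⟩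
  · have := r_or h hb hb
    rcases b with _ | _ | _ <;> exact this
  · exact r_not h hb
  · exact ⟨fun _ => h.1 rfl, nofun⟩

theorem mux (t : T4) (a b : Option Bool) (c : Bool)
    (h : ∀ a' b', Fits a a' → Fits b b' → tt t a' b' = c) :
    ko (ko (ka (kn a) (km t.1 t.2.1 b)) (ka a (km t.2.2.1 t.2.2.2 b)))
      (ka (km t.1 t.2.1 b) (km t.2.2.1 t.2.2.2 b)) = some c := by
  unfold Fits at h
  revert t c
  rcases a with _ | _ | _ <;> rcases b with _ | _ | _ <;> decide

theorem r_out {c : Bool} (h : Rep (some c) z) : toV z = ofB c := by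
  unfold toV
  cases c
  · rw [if_pos (abs_le.1 (h.2 rfl)).2]; rfl
  · have := abs_le.1 (h.1 rfl)
    rw [if_neg (by linarith), if_neg (by linarith), if_neg (by linarith)]; rfl

/-- The twelve gates of a node. -/
def blk (n : ℕ) (g : PGate) : GCirc :=
  [(6, 0, n + 1, n + 2), (6, 0, n + 3, n + 4), (7, 0, n + 5, n + 6), (7, 0, n + 7, n + 5),
    (7, 0, n + 8, n + 6), mx g.1.1 g.1.2.1 (n + 9), mx g.1.2.2.1 g.1.2.2.2 (n + 9),
    (8, 0, n + 8, n + 8), (5, 0, n + 10, 12 * g.2.1.1), (5, 0, n + 11, 12 * g.2.2.1),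
    (0, th g.2.1.2, n, n), (0, th g.2.2.2, n, n)]

def g0 : PGate := ((false, false, false, false), (0, false), (0, false))

def enc (C : List PGate) : GCirc := (idx C).flatMap fun i => blk (12 * i) (C.getD i g0)

def dec (p : List PGate × List ℚ) : List V4 := (idx p.1).map fun i => toV (p.2.getD (12 * i) 0)

theorem flat {β : Type} (c : ℕ) (B : ℕ → List β) (hB : ∀ i, (B i).length = c) (N : ℕ) :
    ((List.range N).flatMap B).length = c * N ∧
      ∀ i < N, ∀ k < c, ((List.range N).flatMap B)[c * i + k]? = (B i)[k]? := by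
  induction N with
  | zero => simp
  | succ N ih =>
    rw [List.range_succ, List.flatMap_append, List.flatMap_singleton]
    refine ⟨by rw [List.length_append, ih.1, hB, Nat.mul_succ], fun i hi k hk => ?_⟩
    rcases (Nat.lt_succ_iff_lt_or_eq.1 hi) with h | rfl
    · rw [List.getElem?_append_left (by rw [ih.1]; nlinarith), ih.2 i h k hk]
    · rw [List.getElem?_append_right (by rw [ih.1]; omega), ih.1, Nat.add_sub_cancel_left]

theorem enc_flat (C : List PGate) : (enc C).length = 12 * C.length ∧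
    ∀ i < C.length, ∀ k < 12, (enc C)[12 * i + k]? = (blk (12 * i) (C.getD i g0))[k]? :=
  flat 12 _ (fun _ => rfl) _

theorem enc_wf {C : List PGate} (h : PWf C) : GWf (enc C) := by
  have l := (enc_flat C).1
  have p := List.length_pos_iff.2 h.1
  refine ⟨List.length_pos_iff.1 (by omega), fun g hg => ?_⟩
  obtain ⟨i, hi, hg⟩ := List.mem_flatMap.1 hg
  rw [mem_idx] at hi
  have w := h.2 (C.getD i g0) (by rw [List.getD_eq_getElem _ _ hi]; exact List.getElem_mem hi)
  have m : ∀ s t n, (mx s t n).1 < 9 ∧ 0 ≤ (mx s t n).2.1 ∧ (mx s t n).2.1 ≤ 1 := fun s t n => by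
    cases s <;> cases t <;> simp [mx]
  have t : ∀ f, 0 ≤ th f ∧ th f ≤ 1 := fun f => by cases f <;> norm_num [th]
  rw [l]
  simp only [blk, List.mem_cons, List.not_mem_nil, or_false] at hg
  have b : ∀ k a b : ℕ, k < 9 → a < 12 * C.length → b < 12 * C.length → k < 9 ∧ (0 : ℚ) ≤ 0 ∧
      (0 : ℚ) ≤ 1 ∧ a < 12 * C.length ∧ b < 12 * C.length :=
    fun _ _ _ u v w => ⟨u, le_rfl, zero_le_one, v, w⟩
  have c : 12 * i + 9 < 12 * C.length := by omega
  have d : 12 * i < 12 * C.length := by omega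
  rcases hg with rfl | rfl | rfl | rfl | rfl | rfl | rfl | rfl | rfl | rfl | rfl | rfl
  iterate 5 exact b _ _ _ (by dsimp only; omega) (by dsimp only; omega) (by dsimp only; omega)
  iterate 2 exact ⟨(m _ _ _).1, (m _ _ _).2.1, (m _ _ _).2.2, c, c⟩
  iterate 3 exact b _ _ _ (by dsimp only; omega) (by dsimp only; omega) (by dsimp only; omega)
  iterate 2 exact ⟨Nat.zero_lt_succ _, (t _).1, (t _).2, d, d⟩

theorem val_dec (C : List PGate) (x : List ℚ) {i : ℕ} (hi : i < C.length) :
    val (dec (C, x)) i = toV (x.getD (12 * i) 0) := by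
  simp [val, dec, idx, List.getD_eq_getElem?_getD, hi]

theorem ok {C : List PGate} (h : PWf C) (x : List ℚ) {i : ℕ} (hi : i < C.length)
    (s : ∀ k < 12, GSat (1 / 20) (enc C) x (12 * i + k)) : POk C (val (dec (C, x))) i := by
  intro g hg c hc
  have e : C.getD i g0 = g := by rw [List.getD_eq_getElem?_getD, hg]; rfl
  have w := h.2 g (List.mem_of_getElem? hg)
  have t := fun k hk γ (u : (blk (12 * i) g)[k]? = some γ) =>
    s k hk γ (by rw [(enc_flat C).2 i hi k hk, e, u])
  rw [val_dec C x w.1, val_dec C x w.2] at hc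
  rw [val_dec C x hi]
  have A := r_rd (t 10 (by decide) _ rfl) (t 8 (by decide) _ rfl)
  have B := r_rd (t 11 (by decide) _ rfl) (t 9 (by decide) _ rfl)
  have X := r_mx (t 5 (by decide) _ rfl) B
  have Y := r_mx (t 6 (by decide) _ rfl) B
  have O := r_or (t 0 (by decide) _ rfl) (r_or (t 1 (by decide) _ rfl)
    (r_and (t 3 (by decide) _ rfl) (r_not (t 7 (by decide) _ rfl) A) X)
    (r_and (t 4 (by decide) _ rfl) A Y)) (r_and (t 2 (by decide) _ rfl) X Y)
  rw [mux g.1 _ _ c hc] at O
  exact r_out O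

end TG

open TG in
theorem toG : ToG := by
  refine ⟨12, enc, dec, by decide, ?_, ?_, fun C h => ⟨enc_wf h, fun δ x hx => ?_⟩⟩
  · unfold enc blk mx th; fun_prop
  · have := poly_toV
    unfold dec; fun_prop
  · have p : (0 : ℝ) < C.length := Nat.cast_pos.2 (List.length_pos_iff.2 h.1)
    have l := (enc_flat C).1
    have k : ∀ i : {i : Fin C.length // ¬POk C (val (dec (C, x))) i},
        ∃ c : {c | c < (enc C).length ∧ ¬GSat (1 / 20) (enc C) x c}, c.1 / 12 = i.1.1 := fun i => by
      obtain ⟨k, hk, u⟩ : ∃ k < 12, ¬GSat (1 / 20) (enc C) x (12 * i.1.1 + k) := by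
        by_contra! v
        exact i.2 (ok h x i.1.2 v)
      have := i.1.2
      exact ⟨⟨_, by omega, u⟩, by dsimp only; omega⟩
    choose φ hφ using k
    have : Finite {c | c < (enc C).length ∧ ¬GSat (1 / 20) (enc C) x c} :=
      ((Set.finite_lt_nat _).subset fun _ u => u.1).to_subtype
    have n := Nat.card_le_card_of_injective φ fun i j u =>
      Subtype.ext (Fin.ext (by rw [← hφ, ← hφ, u]))
    have m : (Set.ncard {c | c < (enc C).length ∧ ¬GSat (1 / 20) (enc C) x c} : ℝ) ≤
        δ * (enc C).length := by exact_mod_cast hx.2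
    rw [pviol, pr_eq_cn, Nat.card_eq_fintype_card, Fintype.card_fin, div_le_iff₀ p]
    refine ((Nat.cast_le.2 n).trans m).trans_eq ?_
    rw [l]; push_cast; ring

end Pool.Agent.PP
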