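import Pool.Agent.MP_13199e_lc.PP.G.Iter
import Pool.Agent.MP_13199e_lc.PP.G.Enum
import Pool.Agent.MP_13199e_lc.PP.G.Base
import Pool.Agent.MP_13199e_lc.PP.G.Comp

/-! PROJECT PP, block G: the iteration of the rounds. -/

set_option autoImplicit false
set_option linter.unusedSectionVars false

namespace Pool.Agent.PP

open Pool.Agent.MP_13199e_lc Pool.Agent.PolyT Pool.Agent.H82 N487b59b3 Function

namespace Tow

noncomputable local instance funCode {J β : Type} [Finite J] [Finite β] : N487b59b3 (J → β) :=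
  finCode _

variable {Mv Λ Sl J : Type} {T : Tow Mv Λ} [Finite Mv] [Finite Λ] [Finite Sl] [Finite J]
  [Inhabited Mv] [Inhabited Λ] [N487b59b3 Mv] [N487b59b3 Λ]

/-- The top of a stack of wirings. -/
def top (l : List (Wir Mv Sl)) : Wir Mv Sl := l.headD default

/-- The fraction of the violated gates of a table. -/
noncomputable def vT (s : List (Wir Mv Sl) × T.Tb (Sl → Gate)) (x : T.Tb (Sl → V4)) : ℝ :=
  viol (top s.1) (T.mv s.2.1.k) (fun z => look s.2 ⟨_, z⟩) fun z => look x ⟨_, z⟩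

/-- One round. -/
noncomputable def round (ws : J → List Mv) (Φ : Wir Mv Sl → Wir Mv Sl)
    (Ψ : Wir Mv Sl → (J → Sl → Gate) → Λ → Sl → Gate) (s : List (Wir Mv Sl) × T.Tb (Sl → Gate)) :
    List (Wir Mv Sl) × T.Tb (Sl → Gate) :=
  (Φ (top s.1) :: s.1, mkT s.2.1.succ fun p =>
    Ψ (top s.1) (fun a => look s.2 (run T.mvP (ws a) (T.down p))) ((T.dig p).headD default))

/-- One step of the decoder. -/
noncomputable def dec (ws : J → List Mv) (Δ : Wir Mv Sl → (J → Λ → Sl → V4) → Sl → V4)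
    (x : List (Wir Mv Sl) × T.Tb (Sl → V4)) : List (Wir Mv Sl) × T.Tb (Sl → V4) :=
  (x.1.tail, mkT x.2.1.pred fun p =>
    Δ (top x.1.tail) fun a l => look x.2 (T.up (run T.mvP (ws a) p) l))

/-- The nodes of a level. -/
noncomputable def nodes (Sl : Type) [Finite Sl] (k : T.Lev) : List (T.Pt × Sl) :=
  (T.all k.k).flatMap fun p => (enum Sl).map fun s => (p, s)

variable [DecidableEq Sl]

/-- The plain circuit of a table. -/
noncomputable def flat (s : List (Wir Mv Sl) × T.Tb (Sl → Gate)) : List PGate :=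
  flatL (nodes Sl s.2.1) (fun v => look s.2 v.1 v.2) fun v c =>
    (T.mvP ((top s.1).2 c v.2) v.1, (top s.1).1 c v.2)

/-- The table of an assignment. -/
noncomputable def unf (k : T.Lev) (y : List V4) : T.Tb (Sl → V4) :=
  mkT k fun p s => val y ((nodes Sl k).idxOf (p, s))

theorem ne (k : ℕ) : Nonempty (T.Z k) := ⟨T.org default k⟩

theorem flat_spec [Nonempty Sl] (s : List (Wir Mv Sl) × T.Tb (Sl → Gate)) :
    PWf (flat s) ∧ ∀ y, pviol (flat s) y = vT s (unf s.2.1 y) := by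
  have := ne (T := T) s.2.1.k
  have h := flat_ok (l := nodes Sl s.2.1) ((T.nodup_all _).product (nodup_enum Sl))
    (e := fun u : T.Z s.2.1.k × Sl => (⟨_, u.1⟩, u.2)) (fun u v h => by simpa [Prod.ext_iff] using h)
    (fun ⟨⟨k, z⟩, c⟩ => by
      simp only [nodes, List.mem_flatMap, List.mem_map, T.mem_all, mem_enum, true_and]
      refine ⟨?_, fun ⟨u, e⟩ => ⟨⟨_, u.1⟩, rfl, u.2, e⟩⟩
      rintro ⟨⟨k', z'⟩, rfl, c', e⟩
      exact ⟨(z', c'), e⟩) (top s.1) (T.mv s.2.1.k) (fun z => look s.2 ⟨_, z⟩)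
    (G := fun v => look s.2 v.1 v.2)
    (nb := fun v c => (T.mvP ((top s.1).2 c v.2) v.1, (top s.1).1 c v.2))
    (fun _ _ => rfl) fun _ _ _ => rfl
  refine ⟨h.1, fun y => (h.2 y).trans ?_⟩
  unfold vT unf
  congr 1
  funext z
  rw [look_mkT _ rfl]

section
variable {ws : J → List Mv} {Φ : Wir Mv Sl → Wir Mv Sl}
  {Ψ : Wir Mv Sl → (J → Sl → Gate) → Λ → Sl → Gate}
  {Δ : Wir Mv Sl → (J → Λ → Sl → V4) → Sl → V4}

theorem lv_round (s : List (Wir Mv Sl) × T.Tb (Sl → Gate)) (i : ℕ) :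
    ((round ws Φ Ψ)^[i] s).2.1.k = s.2.1.k + i := by
  induction i with
  | zero => rfl
  | succ i ih => rw [iterate_succ_apply']; exact congrArg (· + 1) ih

theorem len_round (s : List (Wir Mv Sl) × T.Tb (Sl → Gate)) (i : ℕ) :
    ((round ws Φ Ψ)^[i] s).1.length = s.1.length + i := by
  induction i with
  | zero => rfl
  | succ i ih => rw [iterate_succ_apply']; exact congrArg (· + 1) ih

theorem len_dec (x : List (Wir Mv Sl) × T.Tb (Sl → V4)) (i : ℕ) :
    ((dec ws Δ)^[i] x).1.length ≤ x.1.length + i := by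
  induction i with
  | zero => rfl
  | succ i ih =>
    rw [iterate_succ_apply']
    exact (List.tail_sublist _).length_le.trans (ih.trans (Nat.le_succ _))

theorem lv_dec (x : List (Wir Mv Sl) × T.Tb (Sl → V4)) (i : ℕ) :
    ((dec ws Δ)^[i] x).2.1.k = x.2.1.k - i := by
  induction i with
  | zero => rfl
  | succ i ih => rw [iterate_succ_apply']; exact congrArg (· - 1) ih

theorem iter_le {δ : ℝ}
    (h : ∀ k ω (C : T.Z k → Sl → Gate) (C' : T.Z (k + 1) → Sl → Gate) (x : T.Z (k + 1) → Sl → V4),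
      (∀ y, C' y = Ψ ω (fun a => C (run (T.mv k) (ws a) (T.sp k y).1)) (T.sp k y).2) →
      viol (Φ ω) (T.mv (k + 1)) C' x ≤ δ →
      viol ω (T.mv k) C (fun z => Δ ω fun a l => x ((T.sp k).symm (run (T.mv k) (ws a) z, l))) ≤
        viol (Φ ω) (T.mv (k + 1)) C' x / 2) (i : ℕ) :
    ∀ (s : List (Wir Mv Sl) × T.Tb (Sl → Gate)) (x : List (Wir Mv Sl) × T.Tb (Sl → V4)),
      x.2.1.k = s.2.1.k + i → x.1 = ((round ws Φ Ψ)^[i] s).1 →
      vT ((round ws Φ Ψ)^[i] s) x.2 ≤ δ → ((dec ws Δ)^[i] x).1 = s.1 ∧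
      vT s ((dec ws Δ)^[i] x).2 ≤ vT ((round ws Φ Ψ)^[i] s) x.2 / 2 ^ i := by
  induction i with
  | zero => intro s x _ e _; simp [e]
  | succ i ih =>
    intro s x hx hl hδ
    rw [iterate_succ_apply] at hδ hl
    rw [iterate_succ_apply' (dec ws Δ), iterate_succ_apply]
    obtain ⟨h3, h1⟩ := ih (round ws Φ Ψ s) x (hx.trans (Nat.add_right_comm _ i 1)) hl hδ
    have h4 : ((dec ws Δ)^[i] x).1.tail = s.1 := congrArg List.tail h3
    have h0 : 0 ≤ vT ((round ws Φ Ψ)^[i] (round ws Φ Ψ s)) x.2 := pr_nonneg _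
    have h2 := h s.2.1.k (top s.1) (fun z => look s.2 ⟨_, z⟩)
      (fun z => look (round ws Φ Ψ s).2 ⟨_, z⟩)
      (fun z => look ((dec ws Δ)^[i] x).2 ⟨_, z⟩)
      (fun y => (look_mkT _ rfl).trans (by simp only [down, run_mvP]; rfl))
      (h1.trans ((div_le_self h0 (one_le_pow₀ one_le_two)).trans hδ))
    rw [pow_succ, ← div_div]
    refine ⟨h4, le_trans (le_of_eq ?_) (h2.trans (div_le_div_of_nonneg_right h1 zero_le_two))⟩
    unfold vT
    congr 1
    funext z
    refine (look_mkT _ ?_).trans (by simp only [run_mvP, h4]; rfl)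
    change s.2.1.k = _ - 1
    rw [lv_dec, hx]
    omega

@[fun_prop] theorem p_top {α : Type} [N487b59b3 α] {l : α → List (Wir Mv Sl)} (h : Poly l) :
    Poly fun a => top (l a) := h.headD (p_const _)

theorem p_round : Poly (round (T := T) ws Φ Ψ) := by
  refine ((poly_fin1 Φ (p_top p_id.fst)).cons p_id.fst).pair (p_mkT (by fun_prop) ?_)
  refine poly_fin2 (fun (u : Wir Mv Sl × (J → Sl → Gate)) l => Ψ u.1 u.2 l)
    (f := fun u : (List (Wir Mv Sl) × T.Tb (Sl → Gate)) × T.Pt =>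
      (top u.1.1, fun a => look u.1.2 (run T.mvP (ws a) (T.down u.2))))
    ((p_top p_id.fst.fst).pair (poly_pi fun a => by fun_prop)) (by fun_prop)

theorem p_dec : Poly (dec (T := T) ws Δ) :=
  p_id.fst.tail.pair (p_mkT (by fun_prop)
    (poly_fin2 Δ (by fun_prop) (poly_pi fun a => poly_pi fun l => by fun_prop)))

end

variable [N487b59b3 Sl] {α : Type} [N487b59b3 α]

@[fun_prop] theorem p_nodes {k : α → T.Lev} (hk : Poly k) : Poly fun a => nodes Sl (k a) := by
  unfold nodes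
  fun_prop

theorem p_flatL {V : Type} [N487b59b3 V] [BEq V] [LawfulBEq V] {l : α → List V}
    {G : α → V → Gate} {nb : α → V → Ch → V} (hl : Poly l) (hG : Poly fun u : α × V => G u.1 u.2)
    (hn : Poly fun u : (α × V) × Ch => nb u.1.1 u.1.2 u.2) :
    Poly fun a => flatL (l a) (G a) (nb a) := by
  have h : ∀ {c : α × V → Ch}, Poly c → Poly fun u : α × V => (l u.1).idxOf (nb u.1 u.2 (c u)) :=
    fun hc => p_idxOf (hn.comp (p_id.pair hc)) (hl.comp p_id.fst)
  exact p_map (hG.fst.pair (((h hG.snd.fst.fst).pair hG.snd.fst.snd).pair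
    ((h hG.snd.snd.fst).pair hG.snd.snd.snd))) hl

theorem p_flat : Poly (flat (T := T) (Sl := Sl)) := by
  refine p_flatL (by fun_prop) (poly_fin2 (fun (g : Sl → Gate) s => g s) (by fun_prop)
    (by fun_prop)) (p_pair (p_mvP ?_ (by fun_prop)) ?_)
  · exact poly_fin2 (fun (ω : Wir Mv Sl) (u : Ch × Sl) => ω.2 u.1 u.2)
      (g := fun u : ((List (Wir Mv Sl) × T.Tb (Sl → Gate)) × T.Pt × Sl) × Ch => (u.2, u.1.2.2))
      (by fun_prop) (by fun_prop)
  · exact poly_fin2 (fun (ω : Wir Mv Sl) (u : Ch × Sl) => ω.1 u.1 u.2)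
      (g := fun u : ((List (Wir Mv Sl) × T.Tb (Sl → Gate)) × T.Pt × Sl) × Ch => (u.2, u.1.2.2))
      (by fun_prop) (by fun_prop)

theorem p_unf {k : α → T.Lev} {y : α → List V4} (hk : Poly k) (hy : Poly y) :
    Poly fun a => unf (Sl := Sl) (k a) (y a) :=
  p_mkT hk (poly_pi fun s => by unfold val; fun_prop)

theorem p_vtx (b : Bool → List Mv) {u : α → ℕ} {p : α → T.Pt} (hu : Poly u) (hp : Poly p) :
    Poly fun a => vtx T.mvP b (u a) (p a) := by
  have hb : Poly b := poly_fin b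
  refine Poly.congr (f := fun a => run T.mvP ((u a).bits.reverse.flatMap b) (p a)) (by fun_prop)
    fun a => ?_
  unfold vtx
  induction (u a).bits with
  | nil => rfl
  | cons c l ih => simp [run_append, ih]

theorem vtx_mvP (b : Bool → List Mv) (u k : ℕ) (z : T.Z k) :
    vtx T.mvP b u ⟨k, z⟩ = ⟨k, vtx (T.mv k) b u z⟩ := by
  unfold vtx
  induction u.bits with
  | nil => rfl
  | cons c l ih => rw [List.foldr_cons, ih, run_mvP]; rfl

theorem card_Z (T : Tow Mv Λ) (k : ℕ) : Nat.card (T.Z k) = Nat.card Λ ^ k := by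
  induction k with
  | zero => exact T.one
  | succ k ih => rw [Nat.card_congr (T.sp k), Nat.card_prod, ih, pow_succ]

theorem pok_congr {C : List PGate} (hC : PWf C) {y y' : ℕ → V4} (h : ∀ u < C.length, y u = y' u)
    {i : ℕ} (hy : POk C y i) : POk C y' i := fun g hg => by
  have h1 := hC.2 g (List.mem_of_getElem? hg)
  rw [← h _ h1.1, ← h _ h1.2, ← h i (List.getElem?_eq_some_iff.1 hg).1]
  exact hy g hg

theorem two_pow_bits (n : ℕ) : n < 2 ^ n.bits.length ∧ 2 ^ n.bits.length ≤ 2 * n + 1 := by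
  rw [Nat.size_eq_bits_len]
  refine ⟨Nat.lt_size_self n, ?_⟩
  rcases h : n.size with _ | s
  · omega
  · have := Nat.lt_size.1 (h ▸ Nat.lt_succ_self s : s < n.size)
    omega

theorem towS : TowS := by
  intro Mv Λ Sl _ _ _ T δ hδ hΛ hS hT ⟨J, _, ws, Φ, Ψ, Δ, hA⟩
  classical
  let _ := finCode Mv
  let _ := finCode Λ
  let _ := finCode Sl
  obtain ⟨ω, Ψ₀, o, a, w, l, hi, hb⟩ := base_embed Comp.compS T hT hS
  let _ : Inhabited Λ := ⟨l⟩
  let _ : Inhabited Mv := ⟨T.m0⟩
  have : Nonempty Sl := ⟨o⟩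
  let c := Nat.card Λ * Nat.card Sl
  let u0 : List PGate → List Bool := fun C => false :: C.length.bits
  let u1 : List PGate → List Bool := fun C => (u0 C).flatMap fun _ => List.replicate c false
  let k0 : List PGate → T.Lev := fun C => ⟨C.length.bits.length + 1⟩
  let ps : List PGate → ℕ → ℕ → T.Pt := fun C => pos T.mvP a (run T.mvP w (orgP l (k0 C)))
  let ctx : List PGate → T.Pt → BCtx := fun C p =>
    lk ((idx C).flatMap fun u => (idx C).map fun v => (ps C u v, role C u v)) p default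
  let s0 : List PGate → List (Wir Mv Sl) × T.Tb (Sl → Gate) := fun C =>
    ([ω], mkT (k0 C) fun p => Ψ₀ (ctx C p))
  let sK := fun C => (round ws Φ Ψ)^[(u1 C).length] (s0 C)
  let x0 := fun u : List PGate × List V4 =>
    (dec ws Δ)^[(u1 u.1).length] ((sK u.1).1, unf (Sl := Sl) (sK u.1).2.1 u.2)
  have l1 : ∀ C, (u1 C).length = (k0 C).k * c := fun C => by
    simp [u1, u0, k0, List.length_flatMap, add_mul, add_comm]
  have p0 : Poly u0 := by fun_prop
  have p1 : Poly u1 := by fun_prop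
  have b0 : Bd bitEncode fun C => Nat.card Λ ^ (u0 C).length := by
    refine (((Bd.const 2).mul (((Bd.const 2).mul Bd.len).add (Bd.const 1))).pow
      (Nat.card Λ)).of_le fun C => ?_
    refine (Nat.pow_le_pow_left Nat.lt_two_pow_self.le _).trans ?_
    rw [← pow_mul, mul_comm, pow_mul]
    refine Nat.pow_le_pow_left ?_ _
    have := (two_pow_bits C.length).2
    have := length_le_enc C
    simp only [u0, List.length_cons, pow_succ]
    omega
  have pk : Poly k0 := p_mkLev hΛ p0 b0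
  have pK := p_mkLev (T := T) hΛ (p0.append p1) ((b0.pow (c + 1)).of_le fun C => by
    rw [List.length_append, l1, ← pow_mul, mul_add, mul_one, add_comm]; rfl)
  have pp : Poly fun u : List PGate × ℕ × ℕ => ps u.1 u.2.1 u.2.2 :=
    p_vtx _ (by fun_prop) (p_vtx _ (by fun_prop) (by fun_prop))
  have pc : Poly fun u : List PGate × T.Pt => ctx u.1 u.2 :=
    p_lk (p_flatMap (p_map ((pp.comp (f := fun u : ((List PGate × T.Pt) × ℕ) × ℕ =>
      (u.1.1.1, u.1.2, u.2)) (by fun_prop)).pair (by fun_prop)) (by fun_prop)) (by fun_prop))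
      p_id.snd (p_const _)
  have ps0 : Poly s0 := (p_const [ω]).pair (p_mkT pk (poly_fin1 Ψ₀ pc))
  have pS : Poly sK := p_iter (by omega) p_round p1 ps0 pK fun C i h =>
    ⟨(len_round _ _).le, by rw [lv_round, List.length_append]; exact Nat.add_le_add_left h _, by
      cases i with
      | zero => exact ⟨_, rfl⟩
      | succ i => rw [iterate_succ_apply']; exact ⟨_, rfl⟩⟩
  have pL : Poly fun u : List PGate × List V4 => (sK u.1).2.1 := (pS.comp p_id.fst).snd.fst
  have pX : Poly x0 := p_iter (by omega) p_dec (p1.comp p_id.fst)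
    ((pS.comp p_id.fst).fst.pair (p_unf pL p_id.snd)) pL fun u i _ =>
    ⟨len_dec _ _, by rw [lv_dec]; exact Nat.sub_le _ _, by
      cases i with
      | zero => exact ⟨_, rfl⟩
      | succ i => rw [iterate_succ_apply']; exact ⟨_, rfl⟩⟩
  refine ⟨δ, fun C => flat (sK C), hδ, fun u => (idx u.1).map fun v => look (x0 u).2 (ps u.1 v v) o,
    p_flat.comp pS, p_map (poly_fin1 (fun g : Sl → V4 => g o) (p_look (pX.comp p_id.fst).snd
      (pp.comp (f := fun u : (List PGate × List V4) × ℕ => (u.1.1, u.2, u.2)) (by fun_prop))))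
      (by fun_prop), fun C hC => ⟨(flat_spec _).1, fun y hy i => ?_⟩⟩
  rw [(flat_spec _).2] at hy
  have h1 := (iter_le hA _ (s0 C) ((sK C).1, unf (sK C).2.1 y) (lv_round _ _) rfl hy).2
  have e1 : ∀ u v, ps C u v = ⟨(k0 C).k, pos (T.mv _) a (run (T.mv _) w (T.org l _)) u v⟩ :=
    fun u v => by simp only [ps, pos, orgP, run_mvP, vtx_mvP]
  refine pok_congr hC (fun u hu => ?_) (hb (k0 C).k (run (T.mv _) w (T.org l _)) C hC
    (fun z => ctx C ⟨_, z⟩) (fun u hu v hv => ?_) (fun z => look (x0 (C, y)).2 ⟨_, z⟩) ?_ i)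
  · simp [val, idx, hu, e1]
  · refine lk_eq _ ?_ fun r hr => ?_
    · simp only [List.mem_flatMap, List.mem_map, mem_idx]
      exact ⟨u, hu, v, hv, by rw [e1]⟩
    · simp only [List.mem_flatMap, List.mem_map, mem_idx, e1, Prod.mk.injEq, Pt.mk.injEq,
        heq_eq_eq, true_and] at hr
      obtain ⟨u', hu', v', hv', e, rfl⟩ := hr
      have t := (two_pow_bits C.length).1
      obtain ⟨rfl, rfl⟩ := hi _ _ _ _ _ (hu'.trans t) (hv'.trans t) (hu.trans t) (hv.trans t) e
      rfl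
  · have e2 : (fun z : T.Z (k0 C).k => Ψ₀ (ctx C ⟨_, z⟩)) = fun z => look (s0 C).2 ⟨_, z⟩ :=
      funext fun z => (look_mkT (fun p => Ψ₀ (ctx C p)) rfl).symm
    rw [e2]
    refine by_contra fun hp => ?_
    obtain ⟨p, hp⟩ := exists_of_pr_pos ((pr_nonneg _).lt_of_ne' hp)
    have h2 : 1 / (Nat.card (T.Z (k0 C).k × Sl) : ℝ) ≤ 1 / 2 ^ (u1 C).length :=
      le_trans (le_trans (le_pr (a := p) hp) h1)
        (div_le_div_of_nonneg_right (pr_le_one _) (by positivity))
    rw [Nat.card_prod, card_Z, l1, one_div_le_one_div (by positivity) (by positivity)] at h2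
    have h3 : Nat.card Λ ^ (k0 C).k * Nat.card Sl < 2 ^ ((k0 C).k * c) := by
      rw [mul_comm _ c, pow_mul]
      refine lt_of_le_of_lt ?_ (Nat.pow_lt_pow_left Nat.lt_two_pow_self (Nat.succ_ne_zero _))
      rw [mul_pow]
      exact Nat.mul_le_mul_left _ (Nat.le_self_pow (Nat.succ_ne_zero _) _)
    exact absurd (by exact_mod_cast h2) h3.not_ge

end Tow

end Pool.Agent.PP
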